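import Mathlib
import Pool.Agent.Y682.AM
import Pool.Agent.Y682.ZS
import Pool.Agent.U115.GD.Stm

/-!
# Project GE (helper115): all elliptic curves with a rational point of order two

`E : y² = x³ + a x² + b x` with integers `a`, `b`; `E_D : y² = x³ + a D x² + b D² x`. Definitions and the
statements of the delegated parts.
-/

set_option autoImplicit false

open scoped Classical

namespace Pool.Agent.U115.GE

open Finset
open Pool.Agent.Y682 (wc)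
open Pool.Agent.TH841.NF.D (Sha rk)

/-- the covering `N² = d M⁴ + a M² e² + (b / d) e⁴` has a nontrivial point over `K` -/
def Qs (K : Type) [Field K] (a b d : ℤ) : Prop :=
  ∃ N M e : K, (M ≠ 0 ∨ e ≠ 0) ∧
    N ^ 2 = (d : K) * M ^ 4 + (a : K) * M ^ 2 * e ^ 2 + (b : K) / (d : K) * e ^ 4

/-- everywhere locally soluble -/
def ELS (a b d : ℤ) : Prop := Qs ℝ a b d ∧ ∀ (p : ℕ) [Fact p.Prime], Qs ℚ_[p] a b d

/-- the Selmer group, as a set of squarefree integers -/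
def SelSet (a b : ℤ) : Set ℤ := {d | Squarefree d ∧ ELS a b d}

/-- the number of its elements -/
noncomputable def sel (a b : ℤ) : ℕ := (SelSet a b).ncard

/-- the residue condition on `n`: `1` modulo `8` and a nonzero square modulo the odd bad primes -/
def Res (a b : ℤ) (n : ℕ) : Prop := n % 8 = 1 ∧ ∀ l : ℕ, l.Prime → l ≠ 2 →
  (l : ℤ) ∣ b * (a ^ 2 - 4 * b) → ¬ l ∣ n ∧ IsSquare (n : ZMod l)

/-- split primes -/
def Split (a b : ℤ) (p : ℕ) : Prop := p.Prime ∧ Res a b p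

/-- inert primes -/
def Inert (a b : ℤ) (q : ℕ) : Prop := q.Prime ∧ q ≠ 2 ∧ ¬ IsSquare (b : ZMod q) ∧
  ¬ IsSquare ((a ^ 2 - 4 * b : ℤ) : ZMod q)

/-- the class -/
def Class (a b : ℤ) (D : ℕ) : Prop := Squarefree D ∧ Res a b D ∧
  ∀ p ∈ D.primeFactors, Split a b p ∨ Inert a b p

/-- the data of project GD for a pair -/
noncomputable def cfg (a b : ℤ) : Pool.Agent.U115.GD.Cfg where
  L := (b * (a ^ 2 - 4 * b)).natAbs.primeFactors.erase 2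
  Q := 8 * (b * (a ^ 2 - 4 * b)).natAbs
  B := (range (8 * (b * (a ^ 2 - 4 * b)).natAbs)).filter fun r =>
    Nat.Coprime r (8 * (b * (a ^ 2 - 4 * b)).natAbs) ∧ jacobiSym b r = -1 ∧
      jacobiSym (a ^ 2 - 4 * b) r = -1

/-- GE-SHA: the classical bound -/
def S_BND : Prop := ∀ a b : ℤ, b ≠ 0 → a ^ 2 - 4 * b ≠ 0 →
  Finite {x : Sha (wc (a : ℚ) (b : ℚ)) // 2 • x = 0} ∧
  4 * 2 ^ rk (wc (a : ℚ) (b : ℚ)) * Nat.card {x : Sha (wc (a : ℚ) (b : ℚ)) // 2 • x = 0} ≤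
    sel a b * sel (-2 * a) (a ^ 2 - 4 * b)

/-- GE-CNV: everywhere locally soluble coverings without rational points give elements of `Ш[2]` -/
def S_CNV : Prop := ∀ (a b : ℤ), b ≠ 0 → a ^ 2 - 4 * b ≠ 0 → ¬ IsSquare (b : ℚ) →
  ¬ IsSquare ((a : ℚ) ^ 2 - 4 * b) → Finite (wc (a : ℚ) (b : ℚ)).toAffine.Point →
  ∀ T : Finset ℤ, (∀ d ∈ T, 0 < d ∧ ∀ (p : ℕ) [Fact p.Prime], Qs ℚ_[p] (-2 * a) (a ^ 2 - 4 * b) d) →
  (∀ d ∈ T, ∀ e ∈ T, d ≠ e → ¬ IsSquare ((d * e : ℤ) : ℚ) ∧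
    ¬ IsSquare (((d * e : ℤ) : ℚ) * ((a : ℚ) ^ 2 - 4 * b))) →
  Finite {x : Sha (wc (a : ℚ) (b : ℚ)) // 2 • x = 0} →
  T.card ≤ Nat.card {x : Sha (wc (a : ℚ) (b : ℚ)) // 2 • x = 0}

/-- GE-CFG: the class and the data of project GD -/
def S_CFG : Prop := ∀ (a b : ℤ), b ≠ 0 → a ^ 2 - 4 * b ≠ 0 → ¬ IsSquare b →
  ¬ IsSquare (a ^ 2 - 4 * b) →
  Pool.Agent.U115.GD.Ok (cfg a b) ∧
  (∀ n : ℕ, Res a b n ↔ Pool.Agent.U115.GD.Hc (cfg a b) n) ∧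
  (∀ q : ℕ, Inert a b q ↔ Pool.Agent.U115.GD.In (cfg a b) q) ∧
  ∀ D : ℕ, Class a b D ↔ Squarefree D ∧ Pool.Agent.U115.GD.Cl (cfg a b) D.primeFactors

/-- GE-GOOD: the primes of good reduction -/
def S_GOOD : Prop := ∀ (a b d : ℤ) (p : ℕ) [Fact p.Prime], p ≠ 2 → ¬ (p : ℤ) ∣ b →
  ¬ (p : ℤ) ∣ a ^ 2 - 4 * b → ¬ (p : ℤ) ∣ d → Qs ℚ_[p] a b d

end Pool.Agent.U115.GE
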