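import Pool.Agent.U115.GE.Defs
import Pool.Agent.U115.XP.Fin

/-!
# Local solubility of the coverings
-/

set_option autoImplicit false
set_option linter.style.haveILetI false
set_option linter.unusedVariables false

namespace Pool.Agent.U115.GE

open Finset
open Pool.Agent.Y687 (prime_cast_ne)
open Pool.Agent.U115.TP (LSol erase_prod)
open Pool.Agent.U115.XP (sq_erase_iff prod_ne)

/-- no root of `x² + a m x + b m²` modulo `p` is a square -/
def RtG (a b : ℤ) (p m : ℕ) : Prop := ∀ x : ZMod p,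
  x ^ 2 + (a : ZMod p) * m * x + (b : ZMod p) * (m : ZMod p) ^ 2 = 0 → ¬ IsSquare x

/-- the two roots have the same class -/
theorem root_sqG {p m : ℕ} {a b : ℤ} [hp : Fact p.Prime] (hb : IsSquare (b : ZMod p))
    {ρ ρ' : ZMod p} (h : ρ ^ 2 + (a : ZMod p) * m * ρ + (b : ZMod p) * (m : ZMod p) ^ 2 = 0)
    (h' : ρ' ^ 2 + (a : ZMod p) * m * ρ' + (b : ZMod p) * (m : ZMod p) ^ 2 = 0) (h0 : ρ' ≠ 0)
    (hs : IsSquare ρ') : IsSquare ρ := by
  by_cases he : ρ = ρ'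
  · rw [he]; exact hs
  have h1 : (ρ - ρ') * (ρ + ρ' + (a : ZMod p) * m) = 0 := by linear_combination h - h'
  have h2 : ρ + ρ' + (a : ZMod p) * m = 0 := (mul_eq_zero.1 h1).resolve_left (sub_ne_zero.2 he)
  have h3 : ρ * ρ' = (b : ZMod p) * (m : ZMod p) ^ 2 := by linear_combination ρ * h2 - h
  obtain ⟨τ, hτ⟩ := hb
  obtain ⟨s, hs⟩ := hs
  have hs0 : s ≠ 0 := by rintro rfl; apply h0; rw [hs]; ring
  refine ⟨τ * m / s, ?_⟩
  rw [div_mul_div_comm, eq_div_iff (mul_ne_zero hs0 hs0), ← hs]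
  linear_combination h3 + ((m : ZMod p) ^ 2) * hτ

/-- the local condition at a split prime dividing `d` -/
theorem rt1G {p q m : ℕ} {a b : ℤ} [hp : Fact p.Prime] (hb : IsSquare (b : ZMod p))
    (hb0 : (b : ZMod p) ≠ 0) {M d d1 : ℤ} (h : LSol (a * M) (b * M ^ 2) d p)
    (hd : Squarefree d) (hM : Squarefree M) (hMM : M = p * (q * m)) (hdd : d = p * d1) :
    ¬ (IsSquare ((d1 : ZMod p) * (q : ZMod p)) ↔ RtG a b p m) := by
  have hp0 : (p : ℤ) ≠ 0 := by exact_mod_cast hp.out.ne_zero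
  obtain ⟨d1', M1, hdd', hMM', k1, w, e, k2, k3⟩ := h.root hd hM ⟨_, hdd⟩ ⟨_, hMM⟩
  obtain rfl : d1' = d1 := mul_left_cancel₀ hp0 (hdd'.symm.trans hdd)
  obtain rfl : M1 = q * m := mul_left_cancel₀ hp0 (hMM'.symm.trans hMM)
  push_cast at k1 k3
  have hq0 : (q : ZMod p) ≠ 0 := left_ne_zero_of_mul k1
  have hm0 : (m : ZMod p) ≠ 0 := right_ne_zero_of_mul k1
  set ρ : ZMod p := (d1' : ZMod p) * w ^ 2 / ((q : ZMod p) * e ^ 2) with hρ
  have hroot : ρ ^ 2 + (a : ZMod p) * m * ρ + (b : ZMod p) * (m : ZMod p) ^ 2 = 0 := by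
    rw [hρ]
    field_simp
    linear_combination k3
  have hne : ∀ x : ZMod p, x ^ 2 + (a : ZMod p) * m * x + (b : ZMod p) * (m : ZMod p) ^ 2 = 0 →
      x ≠ 0 := by
    rintro x hx rfl
    have : (b : ZMod p) * (m : ZMod p) ^ 2 = 0 := by linear_combination hx
    exact mul_ne_zero hb0 (pow_ne_zero 2 hm0) this
  have hρ0 : ρ ≠ 0 := hne ρ hroot
  have hw0 : w ≠ 0 := by
    intro h0
    apply hρ0
    rw [hρ, h0]; ring
  have key : IsSquare ρ ↔ IsSquare ((d1' : ZMod p) * (q : ZMod p)) := by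
    have e1 : (d1' : ZMod p) * (q : ZMod p) = ρ * ((q : ZMod p) * e / w) ^ 2 := by
      rw [hρ]; field_simp
    constructor
    · rintro ⟨s, hs⟩
      exact ⟨s * ((q : ZMod p) * e / w), by rw [e1, hs]; ring⟩
    · rintro ⟨s, hs⟩
      refine ⟨s / ((q : ZMod p) * e / w), ?_⟩
      have h7 : (q : ZMod p) * e / w ≠ 0 := div_ne_zero (mul_ne_zero hq0 k2) hw0
      rw [div_mul_div_comm, eq_div_iff (mul_ne_zero h7 h7), ← hs, e1]
      ring
  rw [← key]
  intro hiff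
  by_cases hs : IsSquare ρ
  · exact hiff.1 hs ρ hroot hs
  · apply hs
    apply hiff.2
    intro x hx hxs
    exact hs (root_sqG hb hroot hx (hne x hx) hxs)

/-- the condition in terms of one root -/
theorem rtG_iff {p m : ℕ} {a b : ℤ} [hp : Fact p.Prime] (hb : IsSquare (b : ZMod p))
    (hb0 : (b : ZMod p) ≠ 0) (hm0 : (m : ZMod p) ≠ 0) {ρ : ZMod p}
    (hρ : ρ ^ 2 + (a : ZMod p) * m * ρ + (b : ZMod p) * (m : ZMod p) ^ 2 = 0) :
    RtG a b p m ↔ ¬ IsSquare ρ := by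
  constructor
  · intro h
    exact h ρ hρ
  · intro h x hx hxs
    refine h (root_sqG hb hρ hx ?_ hxs)
    rintro rfl
    have : (b : ZMod p) * (m : ZMod p) ^ 2 = 0 := by linear_combination hx
    exact mul_ne_zero hb0 (pow_ne_zero 2 hm0) this

/-- a root exists -/
theorem exists_root {p m : ℕ} {a b : ℤ} [hp : Fact p.Prime] (hp2 : p ≠ 2)
    (hc : IsSquare ((a ^ 2 - 4 * b : ℤ) : ZMod p)) :
    ∃ ρ : ZMod p, ρ ^ 2 + (a : ZMod p) * m * ρ + (b : ZMod p) * (m : ZMod p) ^ 2 = 0 := by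
  obtain ⟨δ, hδ⟩ := hc
  have n2 : (2 : ZMod p) ≠ 0 := by
    exact_mod_cast prime_cast_ne hp.out 2 Nat.prime_two hp2
  push_cast at hδ
  refine ⟨(m : ZMod p) * (-a + δ) / 2, ?_⟩
  field_simp
  linear_combination (-(m : ZMod p) ^ 2) * hδ

/-- the two descents have the same condition -/
theorem rt_dual {p m : ℕ} {a b : ℤ} [hp : Fact p.Prime] (hp4 : p % 4 = 1)
    (hb : IsSquare (b : ZMod p)) (hb0 : (b : ZMod p) ≠ 0)
    (hc : IsSquare ((a ^ 2 - 4 * b : ℤ) : ZMod p)) (hc0 : ((a ^ 2 - 4 * b : ℤ) : ZMod p) ≠ 0)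
    (hm0 : (m : ZMod p) ≠ 0) : RtG (-2 * a) (a ^ 2 - 4 * b) p m ↔ RtG a b p m := by
  have hp2 : p ≠ 2 := by rintro rfl; omega
  have n2 : (2 : ZMod p) ≠ 0 := by
    exact_mod_cast prime_cast_ne hp.out 2 Nat.prime_two hp2
  obtain ⟨i, hi⟩ := (ZMod.exists_sq_eq_neg_one_iff (p := p)).2 (by omega)
  obtain ⟨ρ, hρ⟩ := exists_root (m := m) hp2 hc
  obtain ⟨β, hβ⟩ := hb
  set X : ZMod p := (m : ZMod p) * (a + 2 * β) with hXd
  have hX : X ^ 2 + ((-2 * a : ℤ) : ZMod p) * m * X +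
      ((a ^ 2 - 4 * b : ℤ) : ZMod p) * (m : ZMod p) ^ 2 = 0 := by
    rw [hXd]
    push_cast
    linear_combination (-4 * (m : ZMod p) ^ 2) * hβ
  rw [rtG_iff hc hc0 hm0 hX, rtG_iff ⟨β, hβ⟩ hb0 hm0 hρ]
  have hρ0 : ρ ≠ 0 := by
    rintro rfl
    have : (b : ZMod p) * (m : ZMod p) ^ 2 = 0 := by linear_combination hρ
    exact mul_ne_zero hb0 (pow_ne_zero 2 hm0) this
  have hX0 : X ≠ 0 := by
    intro h0
    rw [h0] at hX
    have : ((a ^ 2 - 4 * b : ℤ) : ZMod p) * (m : ZMod p) ^ 2 = 0 := by linear_combination hX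
    exact mul_ne_zero hc0 (pow_ne_zero 2 hm0) this
  -- `-X ρ = (ρ - m β)²`
  have e2 : -X * ρ = (ρ - m * β) ^ 2 := by
    rw [hXd]
    linear_combination -hρ + ((m : ZMod p) ^ 2) * hβ
  have e3 : X * ρ = (i * (ρ - m * β)) ^ 2 := by
    linear_combination (-1 : ZMod p) * e2 + ((ρ - m * β) ^ 2) * hi
  have key : IsSquare X ↔ IsSquare ρ := by
    constructor
    · rintro ⟨s, hs⟩
      have hs0 : s ≠ 0 := by rintro rfl; apply hX0; rw [hs]; ring
      refine ⟨i * (ρ - m * β) / s, ?_⟩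
      rw [div_mul_div_comm, eq_div_iff (mul_ne_zero hs0 hs0), ← hs]
      linear_combination e3
    · rintro ⟨s, hs⟩
      have hs0 : s ≠ 0 := by rintro rfl; apply hρ0; rw [hs]; ring
      refine ⟨i * (ρ - m * β) / s, ?_⟩
      rw [div_mul_div_comm, eq_div_iff (mul_ne_zero hs0 hs0), ← hs]
      linear_combination e3
  rw [key]

/-- an inert prime does not divide `d` -/
theorem no_mG {q : ℕ} {a b : ℤ} [hq : Fact q.Prime] (hc : ¬ IsSquare ((a ^ 2 - 4 * b : ℤ) : ZMod q))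
    {M d : ℤ} (h : LSol (a * M) (b * M ^ 2) d q) (hd : Squarefree d) (hM : Squarefree M)
    (hqM : (q : ℤ) ∣ M) : ¬ (q : ℤ) ∣ d := by
  intro hqd
  obtain ⟨d1, M1, -, -, k1, w, e, k2, k3⟩ := h.root hd hM hqd hqM
  set z : ZMod q := (M1 : ZMod q) * e ^ 2 with hz
  have hz0 : z ≠ 0 := mul_ne_zero k1 (pow_ne_zero 2 k2)
  set u : ZMod q := (d1 : ZMod q) * w ^ 2 with hu
  apply hc
  refine ⟨(2 * u + a * z) / z, ?_⟩
  rw [div_mul_div_comm, eq_div_iff (mul_ne_zero hz0 hz0)]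
  push_cast
  linear_combination -4 * k3

/-- the scaling -/
theorem qs_scale {K : Type} [Field K] {a b u c D : ℤ} (hD : IsSquare (D : K)) (hD0 : (D : K) ≠ 0)
    (hc : IsSquare (c : K)) (hc0 : (c : K) ≠ 0) : Qs K (a * D) (b * D ^ 2) (c * u) ↔ Qs K a b u := by
  obtain ⟨δ, hδ⟩ := hD
  obtain ⟨σ, hσ⟩ := hc
  have δ0 : δ ≠ 0 := by rintro rfl; apply hD0; rw [hδ]; ring
  have σ0 : σ ≠ 0 := by rintro rfl; apply hc0; rw [hσ]; ring
  constructor
  · rintro ⟨N, M, e, hne, h⟩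
    refine ⟨σ * N, σ * M, δ * e, ?_, ?_⟩
    · rcases hne with h1 | h1
      · exact Or.inl (mul_ne_zero σ0 h1)
      · exact Or.inr (mul_ne_zero δ0 h1)
    · rw [mul_pow, h]
      push_cast
      rw [hδ, hσ]
      by_cases hu : (u : K) = 0
      · rw [hu]
        simp only [mul_zero, div_zero, zero_mul, zero_add, add_zero]
        ring
      · field_simp
  · rintro ⟨N, M, e, hne, h⟩
    refine ⟨N / σ, M / σ, e / δ, ?_, ?_⟩
    · rcases hne with h1 | h1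
      · exact Or.inl (div_ne_zero h1 σ0)
      · exact Or.inr (div_ne_zero h1 δ0)
    · rw [div_pow, h]
      push_cast
      rw [hδ, hσ]
      by_cases hu : (u : K) = 0
      · rw [hu]
        simp only [mul_zero, div_zero, zero_mul, zero_add, add_zero]
        field_simp
      · field_simp

/-- a point with coordinates in the field gives an integral point -/
theorem lsol_of_qs {p : ℕ} [hp : Fact p.Prime] {A B d : ℤ} (hd : Squarefree d)
    (h : Qs ℚ_[p] A B d) : LSol A B d p := by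
  have hu : ¬ (p : ℤ_[p]) ∣ 1 := fun h => (PadicInt.prime_p (p := p)).not_isUnit (isUnit_of_dvd_one h)
  have hd0 : (d : ℚ_[p]) ≠ 0 := by exact_mod_cast hd.ne_zero
  obtain ⟨N, M, e, hne, h⟩ := h
  have h1 : (d : ℚ_[p]) * N ^ 2 = (d : ℚ_[p]) ^ 2 * M ^ 4 + (A : ℚ_[p]) * d * M ^ 2 * e ^ 2 +
      (B : ℚ_[p]) * e ^ 4 := by
    rw [h]
    field_simp
  by_cases hM : M = 0
  · have he : e ≠ 0 := hne.resolve_left (fun h => h hM)
    refine Pool.Agent.U115.TP.lsol_aux (A := A) (B := B) hd (w := 0) (e := 1) (fun h => hu h.2)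
      (N := N / e ^ 2) ?_
    rw [hM] at h1
    push_cast
    field_simp
    linear_combination h1
  · obtain ⟨w, f, hf, hwf, hnd⟩ := Pool.Agent.U115.TP.exists_frac (l := p) (e / M)
    have hf' : (f : ℚ_[p]) ≠ 0 := fun h => hf (Subtype.coe_injective h)
    have he : e = (w : ℚ_[p]) / f * M := by rw [← hwf]; field_simp
    refine Pool.Agent.U115.TP.lsol_aux (A := A) (B := B) hd (w := f) (e := w)
      (fun h => hnd ⟨h.2, h.1⟩) (N := N * (f : ℚ_[p]) ^ 2 / M ^ 2) ?_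
    rw [he] at h1
    have h2 : (d : ℚ_[p]) * N ^ 2 * (f : ℚ_[p]) ^ 4 = ((d : ℚ_[p]) ^ 2 * (f : ℚ_[p]) ^ 4 +
        (A : ℚ_[p]) * d * (f : ℚ_[p]) ^ 2 * (w : ℚ_[p]) ^ 2 + (B : ℚ_[p]) * (w : ℚ_[p]) ^ 4) * M ^ 4 := by
      rw [h1]
      field_simp
    rw [div_pow, mul_pow]
    rw [show (d : ℚ_[p]) * (N ^ 2 * ((f : ℚ_[p]) ^ 2) ^ 2 / (M ^ 2) ^ 2) =
      ((d : ℚ_[p]) * N ^ 2 * (f : ℚ_[p]) ^ 4) / M ^ 4 by ring, h2]
    field_simp

/-- a square gives a point -/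
theorem qs_sq {K : Type} [Field K] {a b d : ℤ} (h : IsSquare (d : K)) : Qs K a b d := by
  obtain ⟨s, hs⟩ := h
  exact ⟨s, 1, 0, Or.inl one_ne_zero, by rw [hs]; ring⟩

/-- a square times `b` gives a point -/
theorem qs_sqb {K : Type} [Field K] {a b d : ℤ} (hd : (d : K) ≠ 0)
    (h : IsSquare ((b : K) * (d : K))) : Qs K a b d := by
  obtain ⟨s, hs⟩ := h
  refine ⟨s / d, 0, 1, Or.inr one_ne_zero, ?_⟩
  rw [div_pow, sq s, ← hs]
  field_simp
  ring

end Pool.Agent.U115.GE
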