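import Pool.Agent.U115.GE.Fin
import Pool.Agent.U796.GE.BND
import Pool.Agent.U739.GE.GOOD

/-!
# The curve `X_0(14)` has Selmer groups of order two
-/

set_option autoImplicit false
set_option linter.style.haveILetI false
set_option linter.unusedVariables false

open scoped Classical

namespace Pool.Agent.U115.GE

open Pool.Agent.U115.XP (HB)

theorem hb_one : HB 1 ∅ := by
  refine ⟨rfl, fun p hp => absurd hp (Finset.notMem_empty p), ?_, fun q hq h => ?_⟩
  · rw [Finset.prod_empty]
    exact squarefree_one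
  · exact absurd (Nat.dvd_one.1 h) hq.one_lt.ne'

theorem sel_one : SelSet 13 128 = {1, 2} := by
  ext d
  constructor
  · rintro ⟨hd, hr, hp⟩
    have hpos : 0 < d := by
      obtain ⟨N, M, e, hne, h⟩ := hr
      by_contra hneg
      have hd0 : (d : ℝ) < 0 := by
        have h1 : d < 0 := lt_of_le_of_ne (not_lt.1 hneg) hd.ne_zero
        exact_mod_cast h1
      push_cast at h
      have h1 : (d : ℝ) * N ^ 2 = ((d : ℝ) * M ^ 2 + 13 / 2 * e ^ 2) ^ 2 + 343 / 4 * e ^ 4 := by
        have hd0' := hd0.ne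
        rw [h]
        field_simp
        ring
      have h2 : (d : ℝ) * N ^ 2 ≤ 0 := mul_nonpos_of_nonpos_of_nonneg hd0.le (sq_nonneg N)
      have h3 : e = 0 := by
        by_contra he
        have : 0 < e ^ 4 := by positivity
        nlinarith [sq_nonneg ((d : ℝ) * M ^ 2 + 13 / 2 * e ^ 2)]
      rw [h3] at h1
      have h4 : (d : ℝ) * M ^ 2 = 0 := by
        have : ((d : ℝ) * M ^ 2) ^ 2 ≤ 0 := by nlinarith
        exact pow_eq_zero_iff (two_ne_zero) |>.1 (le_antisymm this (sq_nonneg _))
      rcases mul_eq_zero.1 h4 with h5 | h5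
      · exact hd0.ne h5
      · exact hne.elim (fun h => h (pow_eq_zero_iff two_ne_zero |>.1 h5)) fun h => h h3
    obtain ⟨J, hJ, -, h⟩ := hb_one.sel1 hd hpos (fun l hl => by
      have h1 := lsol_of_qs hd (hp l)
      rw [Finset.prod_empty]
      norm_num at h1 ⊢
      exact h1)
    rw [Finset.subset_empty.1 hJ, Finset.prod_empty] at h
    rcases h with h | h
    · left; rw [h]; norm_num
    · right; rw [h]; norm_num
  · rintro (rfl | rfl)
    · exact ⟨squarefree_one, qs_sq ⟨1, by norm_num⟩, fun p _ => qs_sq ⟨1, by norm_num⟩⟩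
    · refine ⟨Int.prime_two.squarefree, qs_sqb (by norm_num) ⟨16, by norm_num⟩, fun p _ =>
        qs_sqb (by norm_num) ⟨16, by norm_num⟩⟩

theorem sel_two : SelSet (-26) (-343) = {1, -7} := by
  ext d
  constructor
  · rintro ⟨hd, hr, hp⟩
    obtain ⟨J, hJ, -, h⟩ := hb_one.sel2 hd (fun l hl => by
      have h1 := lsol_of_qs hd (hp l)
      rw [Finset.prod_empty]
      norm_num at h1 ⊢
      exact h1)
    rw [Finset.subset_empty.1 hJ, Finset.prod_empty] at h
    rcases h with h | h
    · left; rw [h]; norm_num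
    · right; rw [h]; norm_num
  · rintro (rfl | rfl)
    · exact ⟨squarefree_one, qs_sq ⟨1, by norm_num⟩, fun p _ => qs_sq ⟨1, by norm_num⟩⟩
    · refine ⟨?_, qs_sqb (by norm_num) ⟨49, by norm_num⟩, fun p _ =>
        qs_sqb (by norm_num) ⟨49, by norm_num⟩⟩
      have h7 : Prime (7 : ℤ) := by norm_num
      exact h7.neg.squarefree

/-- `#Sel = 2` and `#Sel' = 2` for `X_0(14)` -/
theorem sel_X14 : sel 13 128 = 2 ∧ sel (-2 * 13) (13 ^ 2 - 4 * 128) = 2 := by
  constructor
  · unfold sel
    rw [sel_one, Set.ncard_pair (by norm_num)]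
  · norm_num
    unfold sel
    rw [sel_two, Set.ncard_pair (by norm_num)]

end Pool.Agent.U115.GE
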