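import Pool.Agent.U115.GE.Defs
import Pool.Agent.Y698.SG.Ebb
import Pool.Agent.Y587.SG.LG
import Pool.Agent.Y971.SG.Lq

/-!
# Coverings without rational points give elements of order two of the Tate-Shafarevich group
-/

set_option autoImplicit false
set_option linter.style.haveILetI false

attribute [-instance] DivisionRing.toRatAlgebra

open NumberField IsDedekindDomain

namespace Pool.Agent.U115.GE

open Pool.Agent.Y682 (wc)
open Pool.Agent.TH841.NF.D (rk Sha)
open Pool.Agent.Y698.SG (sha_inj loc_map)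
open Pool.Agent.Y698.SG.Cv (WF LocI)
open Pool.Agent.H921R2.TatePole Pool.Agent.H82R3.EK

open scoped Classical

/-- a point of the curve from a point of the covering -/
theorem loc_of_qs {K : Type} [Field K] [CharZero K] (a b d : ℤ) (hd : d ≠ 0)
    (h : Qs K (-2 * a) (a ^ 2 - 4 * b) d)
    (hsq : IsSquare (d : K) ∨ IsSquare ((d : K) * ((a : K) ^ 2 - 4 * b)) → LocI K a b d) :
    LocI K a b d := by
  obtain ⟨N, M, e, hne, hN⟩ := h
  have hdK : (d : K) ≠ 0 := by exact_mod_cast hd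
  by_cases he : e = 0
  · have hM : M ≠ 0 := by tauto
    refine hsq (Or.inl ⟨N / M ^ 2, ?_⟩)
    rw [he] at hN
    have h1 : N ^ 2 = (d : K) * M ^ 4 := by rw [hN]; ring
    rw [div_mul_div_comm, eq_div_iff (mul_ne_zero (pow_ne_zero 2 hM) (pow_ne_zero 2 hM))]
    linear_combination -h1
  by_cases hM : M = 0
  · refine hsq (Or.inr ⟨N * d / e ^ 2, ?_⟩)
    rw [hM] at hN
    have h1 : N ^ 2 * d = ((a : K) ^ 2 - 4 * b) * e ^ 4 := by
      rw [hN]
      push_cast
      field_simp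
      ring
    rw [div_mul_div_comm, eq_div_iff (mul_ne_zero (pow_ne_zero 2 he) (pow_ne_zero 2 he))]
    linear_combination (-(d : K)) * h1
  refine ⟨d * (M / e) ^ 2, d * M * N / e ^ 3, M / e,
    mul_ne_zero hdK (pow_ne_zero 2 (div_ne_zero hM he)), ?_, rfl⟩
  have h1 : N ^ 2 * d = (d : K) ^ 2 * M ^ 4 - 2 * a * d * M ^ 2 * e ^ 2 +
      ((a : K) ^ 2 - 4 * b) * e ^ 4 := by
    rw [hN]
    push_cast
    field_simp
    ring
  have e1 : (d * M * N / e ^ 3) ^ 2 = (d : K) * M ^ 2 * (N ^ 2 * d) / e ^ 6 := by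
    field_simp
  rw [e1, h1]
  field_simp

theorem wf_eq (a b : ℤ) : WF ℚ a b = wc (a : ℚ) (b : ℚ) := by
  unfold WF Pool.Agent.Y668.Wt wc
  rfl

/-- **the converse bound** -/
theorem t_CNV : S_CNV := by
  intro a b hb hab nb nab hf T hT hne hfin
  have hr : ∀ d : ℤ, 0 < d → LocI ℝ a b d := fun d hd =>
    (Pool.Agent.Y971.SG.Lq.t_LQ a b d hb hab hd.ne').2 hd
  have hq : ∀ d : ℤ, 0 < d → ∀ (p : ℕ) [Fact p.Prime], Qs ℚ_[p] (-2 * a) (a ^ 2 - 4 * b) d →
      LocI ℚ_[p] a b d := fun d hd p hp h =>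
    loc_of_qs a b d hd.ne' h fun h2 => Pool.Agent.Y587.SG.lq a b d hab hd.ne' p h2
  have key := sha_inj ℚ hb hab nb nab (by rw [wf_eq]; exact hf)
    (ι := {d : ℤ // d ∈ T}) (fun d => d.1) (fun d => (hT d.1 d.2).1.ne')
    (fun d v => by
      have : Fact (below v : ℕ).Prime := ⟨(below v).2⟩
      exact loc_map (Pool.Agent.Y698.SG.Th.pth (v := v) (p := (below v : ℕ)) (nm_eq v).2.2)
        (hq d.1 (hT d.1 d.2).1 _ ((hT d.1 d.2).2 _)))
    (fun d => hr d.1 (hT d.1 d.2).1)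
    (fun x y hxy => hne x.1 x.2 y.1 y.2 fun h => hxy (Subtype.ext h))
  rw [wf_eq] at key
  obtain ⟨f, hfi, hf2⟩ := key
  let g : {d : ℤ // d ∈ T} → {x : Sha (wc (a : ℚ) (b : ℚ)) // 2 • x = 0} :=
    fun J => ⟨f J, by rw [two_nsmul]; exact hf2 J⟩
  have hg : Function.Injective g := fun x y h => hfi (congrArg Subtype.val h)
  have h1 := Nat.card_le_card_of_injective g hg
  rwa [Nat.card_eq_fintype_card, Fintype.card_coe] at h1

end Pool.Agent.U115.GE
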