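import Mathlib

/-!
# Independence: inclusion and exclusion for proportions
-/

set_option autoImplicit false

open scoped Classical

namespace Pool.Agent.U115.GE

open Finset Filter

/-- the proportion of the elements of `S` with the property `P` -/
noncomputable def pr (S : Finset ℕ) (P : ℕ → Prop) : ℝ := ((S.filter P).card : ℝ) / (S.card : ℝ)

/-- the indicator -/
noncomputable def ind (p : Prop) : ℝ := if p then 1 else 0

lemma ind_pos {p : Prop} (h : p) : ind p = 1 := if_pos h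

lemma ind_neg {p : Prop} (h : ¬ p) : ind p = 0 := if_neg h

lemma ind_congr {p q : Prop} (h : p ↔ q) : ind p = ind q := by rw [propext h]

lemma ind_all (A : Finset ℕ) (q : ℕ → Prop) : ind (∀ m ∈ A, q m) = ∏ m ∈ A, ind (q m) := by
  by_cases h : ∀ m ∈ A, q m
  · rw [ind_pos h, Finset.prod_congr rfl fun m hm => ind_pos (h m hm), Finset.prod_const_one]
  · rw [ind_neg h]
    push Not at h
    obtain ⟨m, hm, h1⟩ := h
    exact (Finset.prod_eq_zero hm (ind_neg h1)).symm

lemma ind_not (p : Prop) : 1 - ind p = ind (¬ p) := by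
  by_cases h : p
  · rw [ind_pos h, ind_neg (not_not.2 h), sub_self]
  · rw [ind_neg h, ind_pos h, sub_zero]

lemma pr_sum (S : Finset ℕ) (P : ℕ → Prop) : pr S P = (∑ D ∈ S, ind (P D)) / (S.card : ℝ) := by
  unfold pr ind
  congr 1
  rw [Finset.sum_ite, Finset.sum_const_zero, add_zero, Finset.sum_const, nsmul_eq_mul, mul_one]

lemma pr_exact (S : Finset ℕ) {ℳ T : Finset ℕ} (hT : T ⊆ ℳ) (g : ℕ → ℕ → Prop) :
    pr S (fun D => ∀ m ∈ ℳ, (g D m ↔ m ∈ T)) =
      ∑ V ∈ (ℳ \ T).powerset, (-1 : ℝ) ^ V.card * pr S (fun D => ∀ m ∈ T ∪ V, g D m) := by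
  rw [pr_sum]
  simp_rw [pr_sum, mul_div_assoc']
  rw [← Finset.sum_div]
  congr 1
  simp_rw [Finset.mul_sum]
  rw [Finset.sum_comm]
  refine Finset.sum_congr rfl fun D _ => ?_
  have h2 : ind (∀ m ∈ ℳ, (g D m ↔ m ∈ T)) =
      (∏ m ∈ T, ind (g D m)) * ∏ m ∈ ℳ \ T, (1 - ind (g D m)) := by
    simp_rw [ind_not]
    rw [← ind_all, ← ind_all]
    by_cases h3 : ∀ m ∈ T, g D m
    · by_cases h4 : ∀ m ∈ ℳ \ T, ¬ g D m
      · rw [ind_pos h3, ind_pos h4, ind_pos, mul_one]
        intro m hm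
        by_cases hmT : m ∈ T
        · exact ⟨fun _ => hmT, fun _ => h3 m hmT⟩
        · exact ⟨fun h => absurd h (h4 m (Finset.mem_sdiff.2 ⟨hm, hmT⟩)), fun h => absurd h hmT⟩
      · rw [ind_neg h4, mul_zero, ind_neg]
        intro h
        refine h4 fun m hm => ?_
        obtain ⟨h5, h6⟩ := Finset.mem_sdiff.1 hm
        exact fun h7 => h6 ((h m h5).1 h7)
    · rw [ind_neg h3, zero_mul, ind_neg]
      intro h
      exact h3 fun m hm => (h m (hT hm)).2 hm
  rw [h2]
  have h3 : ∏ m ∈ ℳ \ T, (1 - ind (g D m)) =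
      ∑ V ∈ (ℳ \ T).powerset, (-1 : ℝ) ^ V.card * ∏ m ∈ V, ind (g D m) := by
    have e : ∀ m, 1 - ind (g D m) = (-ind (g D m)) + 1 := fun m => by ring
    simp_rw [e]
    rw [Finset.prod_add]
    refine Finset.sum_congr rfl fun V _ => ?_
    rw [Finset.prod_const_one, mul_one, Finset.prod_neg]
  rw [h3, Finset.mul_sum]
  refine Finset.sum_congr rfl fun V hV => ?_
  rw [ind_all, Finset.prod_union]
  · ring
  · rw [Finset.mem_powerset] at hV
    exact Finset.disjoint_left.2 fun m h4 h5 => (Finset.mem_sdiff.1 (hV h5)).2 h4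

lemma sum_alt (A : Finset ℕ) (c : ℝ) (t : ℕ) :
    ∑ V ∈ A.powerset, (-1 : ℝ) ^ V.card * c ^ (t + V.card) = c ^ t * (1 - c) ^ A.card := by
  have h : ∏ _m ∈ A, ((-c) + 1) = ∑ V ∈ A.powerset, (-1 : ℝ) ^ V.card * c ^ V.card := by
    rw [Finset.prod_add]
    refine Finset.sum_congr rfl fun V _ => ?_
    rw [Finset.prod_const_one, mul_one, Finset.prod_const, neg_pow]
  rw [Finset.prod_const] at h
  rw [show (1 : ℝ) - c = -c + 1 by ring, h, Finset.mul_sum]
  refine Finset.sum_congr rfl fun V _ => ?_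
  rw [pow_add]
  ring

/-- if all the sets of `m ∈ U` are jointly good with the proportion `c ^ #U`, then the good events are
independent -/
theorem exact_law {S : ℕ → Finset ℕ} {ℳ : Finset ℕ} {g : ℕ → ℕ → Prop} {c : ℝ}
    (h : ∀ U ⊆ ℳ, Tendsto (fun X => pr (S X) (fun D => ∀ m ∈ U, g D m)) atTop (nhds (c ^ U.card)))
    {T : Finset ℕ} (hT : T ⊆ ℳ) :
    Tendsto (fun X => pr (S X) (fun D => ∀ m ∈ ℳ, (g D m ↔ m ∈ T))) atTop
      (nhds (c ^ T.card * (1 - c) ^ (ℳ.card - T.card))) := by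
  simp_rw [pr_exact _ hT]
  have e : c ^ T.card * (1 - c) ^ (ℳ.card - T.card) =
      ∑ V ∈ (ℳ \ T).powerset, (-1 : ℝ) ^ V.card * c ^ (T ∪ V).card := by
    rw [← Finset.card_sdiff_of_subset hT, ← sum_alt]
    refine Finset.sum_congr rfl fun V hV => ?_
    rw [Finset.mem_powerset] at hV
    rw [Finset.card_union_of_disjoint
      (Finset.disjoint_left.2 fun m h4 h5 => (Finset.mem_sdiff.1 (hV h5)).2 h4)]
  rw [e]
  refine tendsto_finsetSum _ fun V hV => (h (T ∪ V) ?_).const_mul _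
  rw [Finset.mem_powerset] at hV
  exact Finset.union_subset hT (hV.trans Finset.sdiff_subset)

/-- the number of the good `m` has a binomial law -/
theorem binom_law {S : ℕ → Finset ℕ} {ℳ : Finset ℕ} {g : ℕ → ℕ → Prop} {c : ℝ}
    (h : ∀ U ⊆ ℳ, Tendsto (fun X => pr (S X) (fun D => ∀ m ∈ U, g D m)) atTop (nhds (c ^ U.card)))
    (j : ℕ) :
    Tendsto (fun X => pr (S X) (fun D => (ℳ.filter (g D)).card = j)) atTop
      (nhds ((ℳ.card.choose j : ℝ) * (c ^ j * (1 - c) ^ (ℳ.card - j)))) := by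
  have e1 : ∀ X, pr (S X) (fun D => (ℳ.filter (g D)).card = j) =
      ∑ T ∈ ℳ.powersetCard j, pr (S X) (fun D => ∀ m ∈ ℳ, (g D m ↔ m ∈ T)) := by
    intro X
    simp_rw [pr_sum]
    rw [← Finset.sum_div]
    congr 1
    rw [Finset.sum_comm]
    refine Finset.sum_congr rfl fun D _ => ?_
    have e2 : ∀ T ∈ ℳ.powersetCard j, ((∀ m ∈ ℳ, (g D m ↔ m ∈ T)) ↔ ℳ.filter (g D) = T) := by
      intro T hT
      have hT' := (Finset.mem_powersetCard.1 hT).1
      constructor
      · intro h1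
        ext m
        rw [Finset.mem_filter]
        exact ⟨fun h2 => (h1 m h2.1).1 h2.2, fun h2 => ⟨hT' h2, (h1 m (hT' h2)).2 h2⟩⟩
      · rintro rfl m hm
        rw [Finset.mem_filter]
        exact ⟨fun h2 => ⟨hm, h2⟩, fun h2 => h2.2⟩
    rw [Finset.sum_congr rfl fun T hT => ind_congr (e2 T hT)]
    by_cases hj : (ℳ.filter (g D)).card = j
    · rw [ind_pos hj, Finset.sum_eq_single (ℳ.filter (g D)), ind_pos rfl]
      · exact fun T _ hT => ind_neg fun h => hT h.symm
      · intro h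
        exact absurd (Finset.mem_powersetCard.2 ⟨Finset.filter_subset _ _, hj⟩) h
    · rw [ind_neg hj]
      refine (Finset.sum_eq_zero fun T hT => ind_neg fun h => hj ?_).symm
      rw [h]
      exact (Finset.mem_powersetCard.1 hT).2
  simp_rw [e1]
  have e3 : (ℳ.card.choose j : ℝ) * (c ^ j * (1 - c) ^ (ℳ.card - j)) =
      ∑ T ∈ ℳ.powersetCard j, c ^ T.card * (1 - c) ^ (ℳ.card - T.card) := by
    rw [Finset.sum_congr rfl fun T hT => by rw [(Finset.mem_powersetCard.1 hT).2],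
      Finset.sum_const, Finset.card_powersetCard, nsmul_eq_mul]
  rw [e3]
  exact tendsto_finsetSum _ fun T hT => exact_law h (Finset.mem_powersetCard.1 hT).1

end Pool.Agent.U115.GE
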