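import Pool.Agent.U115.GE.Fin
import Pool.Agent.U115.GD.Fin
import Pool.Agent.U643.GD.CFG

/-!
# The class of the twists and the exact proportion
-/

set_option autoImplicit false
set_option linter.style.haveILetI false
set_option linter.unusedSectionVars false
set_option linter.unusedVariables false

open scoped Classical

namespace Pool.Agent.U115.GE

open Finset
open Pool.Agent.U115.XP (matF kap_one)
open Pool.Agent.U643.GE (t_CFG)

variable {a b : ℤ}

/-- the split primes -/
noncomputable def spl (a b : ℤ) (D : ℕ) : Finset ℕ := D.primeFactors.filter fun p => Res a b p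

/-- the inert primes -/
noncomputable def ine (a b : ℤ) (D : ℕ) : Finset ℕ := D.primeFactors.filter fun p => ¬ Res a b p

lemma spl_ine (a b : ℤ) (D : ℕ) : Disjoint (ine a b D) (spl a b D) := by
  rw [Finset.disjoint_left]
  intro p h1 h2
  exact (Finset.mem_filter.1 h1).2 (Finset.mem_filter.1 h2).2

lemma prod_eq {D : ℕ} (h : Squarefree D) :
    D = (∏ p ∈ spl a b D, p) * ∏ q ∈ ine a b D, q := by
  conv_lhs => rw [← Nat.prod_primeFactors_of_squarefree h]
  exact (Finset.prod_filter_mul_prod_filter_not _ _ _).symm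

/-- the hypotheses of the descent -/
theorem class_hg (hb : b ≠ 0) (hc : a ^ 2 - 4 * b ≠ 0) {D : ℕ} (h : Class a b D) :
    HG a b (∏ q ∈ ine a b D, q) (spl a b D) := by
  obtain ⟨h1, h2, h3⟩ := h
  refine ⟨hb, hc, ?_, ?_, ?_, ?_⟩
  · rw [← prod_eq h1]
    exact Int.squarefree_natCast.2 h1
  · rw [← prod_eq h1]
    exact h2
  · intro p hp
    have hp' := Finset.mem_filter.1 hp
    exact ⟨Nat.prime_of_mem_primeFactors hp'.1, hp'.2⟩
  · intro q hq hqm
    have hqD : q ∈ ine a b D := by
      rw [hq.prime.dvd_finsetProd_iff] at hqm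
      obtain ⟨r, hr, hqr⟩ := hqm
      have hrp := Nat.prime_of_mem_primeFactors (Finset.mem_filter.1 hr).1
      rwa [(Nat.prime_dvd_prime_iff_eq hq hrp).1 hqr]
    have hq' := Finset.mem_filter.1 hqD
    rcases h3 q hq'.1 with h | h
    · exact absurd h.2 hq'.2
    · exact h.2

/-- the matrix of a twist -/
noncomputable def mat (a b : ℤ) (D : ℕ) : Matrix (spl a b D) (spl a b D) (ZMod 2) :=
  matF (thetaG a b) (ine a b D) (spl a b D)

/-- the corank of the matrix -/
noncomputable def cork (a b : ℤ) (D : ℕ) : ℕ := (spl a b D).card - (mat a b D).rank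

/-- the number of the elements of the kernel -/
theorem class_kap (hb : b ≠ 0) (hc : a ^ 2 - 4 * b ≠ 0) {D : ℕ} (h : Class a b D) :
    kapG a b (∏ q ∈ ine a b D, q) (spl a b D) = 2 ^ cork a b D :=
  kap_eqG (class_hg hb hc h) (fun _ hq => Nat.prime_of_mem_primeFactors (Finset.mem_filter.1 hq).1)
    rfl (spl_ine a b D)

theorem cork_zero (D : ℕ) : cork a b D = 0 ↔ (mat a b D).det ≠ 0 := by
  have h := kap_one (thetaG a b) (ine a b D) (spl a b D)
  rw [← mat] at h
  rw [← h]
  constructor
  · intro h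
    have : (spl a b D).card - (mat a b D).rank = 0 := h
    rw [this, pow_zero]
  · intro h
    by_contra h2
    have := Nat.one_lt_two_pow h2
    unfold cork at this
    omega

theorem class_gd (hb : b ≠ 0) (hc : a ^ 2 - 4 * b ≠ 0) (nb : ¬ IsSquare b)
    (nc : ¬ IsSquare (a ^ 2 - 4 * b)) (D : ℕ) :
    cork a b D = 0 ↔ Pool.Agent.U115.GD.Gd (cfg a b) (thetaG a b) D.primeFactors := by
  obtain ⟨-, hres, -, -⟩ := t_CFG a b hb hc nb nc
  rw [cork_zero, gd_iffG]
  have e1 : (D.primeFactors.filter fun p => Pool.Agent.U115.GD.Hc (cfg a b) p) = spl a b D :=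
    Finset.filter_congr fun p _ => (hres p).symm
  have e2 : (D.primeFactors.filter fun p => ¬ Pool.Agent.U115.GD.Hc (cfg a b) p) = ine a b D :=
    Finset.filter_congr fun p _ => not_congr (hres p).symm
  rw [e1, e2]
  rfl

/-- **the exact proportion** -/
theorem dens (nb : ¬ IsSquare b) (nc : ¬ IsSquare (a ^ 2 - 4 * b)) :
    Filter.Tendsto (fun X : ℕ =>
      (((Icc 1 X).filter fun D => Class a b D ∧ cork a b D = 0).card : ℝ) /
      (((Icc 1 X).filter fun D => Class a b D).card : ℝ)) Filter.atTop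
      (nhds Pool.Agent.Y703.CQ.c2) := by
  have hb : b ≠ 0 := by
    rintro rfl
    exact nb ⟨0, by norm_num⟩
  have hc : a ^ 2 - 4 * b ≠ 0 := by
    intro h
    exact nc ⟨0, by rw [h]; norm_num⟩
  obtain ⟨hok, -, -, hcl⟩ := t_CFG a b hb hc nb nc
  have h := Pool.Agent.U115.GD.t_DEN (cfg a b) (thetaG a b) hok
  refine h.congr fun X => congrArg₂ (fun a b : ℕ => (a : ℝ) / (b : ℝ)) ?_ ?_
  · refine congrArg Finset.card (Finset.ext fun D => ?_)
    rw [Finset.mem_filter, Finset.mem_filter]
    refine and_congr_right fun _ => ?_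
    rw [← and_assoc, ← hcl]
    exact and_congr_right fun _ => (class_gd hb hc nb nc D).symm
  · refine congrArg Finset.card (Finset.ext fun D => ?_)
    rw [Finset.mem_filter, Finset.mem_filter]
    exact and_congr_right fun _ => (hcl D).symm

end Pool.Agent.U115.GE
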