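import Pool.Agent.U115.GE.Loc

/-!
# The Selmer groups of the twists
-/

set_option autoImplicit false
set_option linter.style.haveILetI false
set_option linter.unusedVariables false

namespace Pool.Agent.U115.GE

open Finset
open Pool.Agent.Y687 (prime_cast_ne)
open Pool.Agent.U115.TP (LSol erase_prod)
open Pool.Agent.U115.XP (sq_erase_iff prod_ne)
open Pool.Agent.Y971.SG.Lq (t_SQ padic_sq2)
open Pool.Agent.TH841.LS.LOCA0

variable {a b : ℤ}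

theorem res_one (a b : ℤ) : Res a b 1 := ⟨rfl, fun l hl _ _ => ⟨hl.not_dvd_one, 1, by norm_num⟩⟩

theorem res_mul {m n : ℕ} (hm : Res a b m) (hn : Res a b n) : Res a b (m * n) := by
  refine ⟨by rw [Nat.mul_mod, hm.1, hn.1], fun l hl h2 hd => ⟨?_, ?_⟩⟩
  · rw [hl.dvd_mul]
    rintro (h | h)
    · exact (hm.2 l hl h2 hd).1 h
    · exact (hn.2 l hl h2 hd).1 h
  · rw [Nat.cast_mul]
    exact (hm.2 l hl h2 hd).2.mul (hn.2 l hl h2 hd).2

theorem res_prod {J : Finset ℕ} (hJ : ∀ p ∈ J, Res a b p) : Res a b (∏ p ∈ J, p) :=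
  Finset.prod_induction _ (fun n => Res a b n) (fun _ _ => res_mul) (res_one a b) hJ

/-- the split primes are good -/
theorem split_nd {p : ℕ} (hp : Split a b p) : ¬ (p : ℤ) ∣ b * (a ^ 2 - 4 * b) := fun h => by
  have h2 : p ≠ 2 := by
    rintro rfl
    have := hp.2.1
    omega
  exact (hp.2.2 p hp.1 h2 h).1 dvd_rfl

theorem usq_nat {p : ℕ} [hpf : Fact p.Prime] (hp : Split a b p) : ∀ n : ℕ, n ≠ 0 →
    (∀ l : ℕ, l.Prime → l ≠ 2 → l ∣ n → (l : ℤ) ∣ b * (a ^ 2 - 4 * b)) →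
    IsSquare (n : ZMod p) := by
  intro n
  induction n using induction_on_primes with
  | zero => intro h; exact absurd rfl h
  | one => intro _ _; exact ⟨1, by norm_num⟩
  | prime_mul l n hl ih =>
    intro h0 h
    have hn : n ≠ 0 := right_ne_zero_of_mul h0
    have h1 := ih hn fun q hq hq2 hqn => h q hq hq2 (hqn.mul_left _)
    rw [Nat.cast_mul]
    refine IsSquare.mul ?_ h1
    by_cases hl2 : l = 2
    · subst hl2
      have h8 := hp.2.1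
      exact_mod_cast (ZMod.exists_sq_eq_two_iff (by rintro rfl; omega)).2 (Or.inl h8)
    · haveI : Fact l.Prime := ⟨hl⟩
      have h8 := hp.2.1
      exact (ZMod.exists_sq_eq_prime_iff_of_mod_four_eq_one (by omega) hl2).2
        (hp.2.2 l hl hl2 (h l hl hl2 (dvd_mul_right _ _))).2

/-- integers with bad prime factors are squares modulo the split primes -/
theorem usq {p : ℕ} [hpf : Fact p.Prime] (hp : Split a b p) {u : ℤ} (hu : u ≠ 0)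
    (h : ∀ l : ℕ, l.Prime → l ≠ 2 → (l : ℤ) ∣ u → (l : ℤ) ∣ b * (a ^ 2 - 4 * b)) :
    IsSquare (u : ZMod p) := by
  have h8 := hp.2.1
  have h1 := usq_nat hp u.natAbs (Int.natAbs_ne_zero.2 hu) fun l hl h2 hd =>
    h l hl h2 (Int.natCast_dvd.2 hd)
  obtain ⟨i, hi⟩ := (ZMod.exists_sq_eq_neg_one_iff (p := p)).2 (by omega)
  rcases Int.natAbs_eq u with h2 | h2
  · rw [h2, Int.cast_natCast]
    exact h1
  · rw [h2, Int.cast_neg, Int.cast_natCast]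
    obtain ⟨s, hs⟩ := h1
    exact ⟨i * s, by rw [hs]; linear_combination (s * s) * hi⟩

theorem split_b {p : ℕ} [hpf : Fact p.Prime] (hp : Split a b p) :
    IsSquare (b : ZMod p) ∧ (b : ZMod p) ≠ 0 ∧ IsSquare ((a ^ 2 - 4 * b : ℤ) : ZMod p) ∧
      ((a ^ 2 - 4 * b : ℤ) : ZMod p) ≠ 0 := by
  have h1 := split_nd hp
  have hb0 : b ≠ 0 := by
    rintro rfl
    exact h1 (by rw [zero_mul]; exact dvd_zero _)
  have hc0 : a ^ 2 - 4 * b ≠ 0 := by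
    intro h
    exact h1 (by rw [h, mul_zero]; exact dvd_zero _)
  refine ⟨usq hp hb0 fun l _ _ h => h.mul_right _, ?_, usq hp hc0 fun l _ _ h => h.mul_left _, ?_⟩
  · rw [Ne, ZMod.intCast_zmod_eq_zero_iff_dvd]
    exact fun h => h1 (h.mul_right _)
  · rw [Ne, ZMod.intCast_zmod_eq_zero_iff_dvd]
    exact fun h => h1 (h.mul_left _)

/-- squares in the bad completions -/
theorem sq_bad {n l : ℕ} [hl : Fact l.Prime] (hn : Res a b n)
    (hb : l = 2 ∨ (l : ℤ) ∣ b * (a ^ 2 - 4 * b)) :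
    IsSquare (((n : ℤ)) : ℚ_[l]) ∧ (((n : ℤ)) : ℚ_[l]) ≠ 0 := by
  have hn0 : (n : ℤ) ≠ 0 := by
    have := hn.1
    omega
  refine ⟨?_, by exact_mod_cast hn0⟩
  by_cases h2 : l = 2
  · subst h2
    exact padic_sq2 (by have := hn.1; omega)
  · obtain ⟨h3, h4⟩ := hn.2 l hl.out h2 (hb.resolve_left h2)
    refine t_SQ l n h2 (fun h => h3 (Int.natCast_dvd_natCast.1 h)) ?_
    rw [Int.cast_natCast]
    exact h4

theorem sq_real {n : ℕ} (hn : n ≠ 0) : IsSquare (((n : ℤ)) : ℝ) ∧ (((n : ℤ)) : ℝ) ≠ 0 := by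
  refine ⟨⟨Real.sqrt n, ?_⟩, by exact_mod_cast hn⟩
  rw [Real.mul_self_sqrt (Nat.cast_nonneg _)]
  push_cast
  rfl

/-- the hypotheses on the twist by `(∏ p) m` -/
structure HG (a b : ℤ) (m : ℕ) (P : Finset ℕ) : Prop where
  hb : b ≠ 0
  hc : a ^ 2 - 4 * b ≠ 0
  sqf : Squarefree ((((∏ p ∈ P, p) * m : ℕ)) : ℤ)
  res : Res a b ((∏ p ∈ P, p) * m)
  pr : ∀ p ∈ P, Split a b p
  two : ∀ q : ℕ, q.Prime → q ∣ m → q ≠ 2 ∧ ¬ IsSquare (b : ZMod q) ∧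
    ¬ IsSquare ((a ^ 2 - 4 * b : ℤ) : ZMod q)

/-- the kernel of the matrix: sets of primes -/
def KerG (a b : ℤ) (m : ℕ) (P J : Finset ℕ) : Prop :=
  (∀ p ∈ P \ J, IsSquare ((∏ q ∈ J, q : ℕ) : ZMod p)) ∧
    ∀ p ∈ J, ¬ (IsSquare ((∏ q ∈ P \ J, q : ℕ) : ZMod p) ↔ RtG a b p m)

variable {m : ℕ} {P J : Finset ℕ}

theorem HG.cop_case (H : HG a b m P) {q : ℕ} (hq : q.Prime)
    (h : (q : ℤ) ∣ (((∏ p ∈ P, p) * m : ℕ) : ℤ)) : q ∈ P ∨ q ∣ m := by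
  have h1 : q ∣ (∏ p ∈ P, p) * m := Int.natCast_dvd_natCast.1 h
  rcases hq.dvd_mul.1 h1 with h2 | h2
  · left
    rw [hq.prime.dvd_finsetProd_iff] at h2
    obtain ⟨r, hr, hqr⟩ := h2
    rwa [(Nat.prime_dvd_prime_iff_eq hq (H.pr r hr).1).1 hqr]
  · exact Or.inr h2

/-- the primes of `P` do not divide `m` -/
theorem HG.not_m (H : HG a b m P) {p : ℕ} (hp : p ∈ P) : ¬ p ∣ m := fun h => by
  have h1 : (p : ℤ) ∣ ((∏ p ∈ P, p : ℕ) : ℤ) :=
    Int.natCast_dvd_natCast.2 (Finset.dvd_prod_of_mem _ hp)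
  have h2 : (p : ℤ) * p ∣ (((∏ p ∈ P, p) * m : ℕ) : ℤ) := by
    push_cast at h1 ⊢
    exact mul_dvd_mul h1 (by exact_mod_cast h)
  exact (Nat.prime_iff_prime_int.1 (H.pr p hp).1).not_isUnit (H.sqf _ h2)

/-- the decomposition of `d` -/
theorem HG.shape (H : HG a b m P) {d : ℤ} (hd : Squarefree d) :
    ∃ (J : Finset ℕ) (u : ℤ), J ⊆ P ∧ (∀ p ∈ P, (p ∈ J ↔ (p : ℤ) ∣ d)) ∧
      d = ((∏ q ∈ J, q : ℕ) : ℤ) * u ∧ ∀ p ∈ P, ¬ (p : ℤ) ∣ u := by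
  classical
  set J : Finset ℕ := P.filter (fun p : ℕ => (p : ℤ) ∣ d) with hJ
  have hJP : J ⊆ P := Finset.filter_subset _ _
  have hdvd : ∏ q ∈ J, q ∣ d.natAbs := by
    refine Finset.prod_primes_dvd _ (fun q hq => (H.pr q (hJP hq)).1.prime) fun q hq => ?_
    exact Int.natCast_dvd.1 (Finset.mem_filter.1 hq).2
  obtain ⟨u, hu⟩ : ((∏ q ∈ J, q : ℕ) : ℤ) ∣ d := Int.natCast_dvd.2 hdvd
  refine ⟨J, u, hJP, fun p hp => ?_, hu, fun p hp hpu => ?_⟩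
  · rw [hJ, Finset.mem_filter]
    exact ⟨fun h => h.2, fun h => ⟨hp, h⟩⟩
  · have hpp := (H.pr p hp).1
    have h1 : (p : ℤ) ∣ d := hu ▸ hpu.mul_left _
    have h2 : p ∈ J := Finset.mem_filter.2 ⟨hp, h1⟩
    have h3 : (p : ℤ) ∣ ((∏ q ∈ J, q : ℕ) : ℤ) :=
      Int.natCast_dvd_natCast.2 (Finset.dvd_prod_of_mem _ h2)
    have h4 := hd (p : ℤ) (by rw [hu]; exact mul_dvd_mul h3 hpu)
    exact (Nat.prime_iff_prime_int.1 hpp).not_isUnit h4

/-- the conditions at the split primes -/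
theorem ker_ofG {d u : ℤ} {J : Finset ℕ} (hpr : ∀ p ∈ P, p.Prime) (hJP : J ⊆ P)
    (hdu : d = ((∏ q ∈ J, q : ℕ) : ℤ) * u)
    (hu : ∀ p ∈ P, ¬ (p : ℤ) ∣ u) (husq : ∀ p ∈ P, IsSquare (u : ZMod p))
    (h1 : ∀ (p : ℕ) [Fact p.Prime], p ∈ P → p ∉ J → IsSquare (d : ZMod p))
    (h2 : ∀ (p : ℕ) [Fact p.Prime], p ∈ J →
      ¬ (IsSquare ((((((∏ q ∈ J.erase p, q : ℕ) : ℤ) * u : ℤ)) : ZMod p) *
        ((∏ q ∈ P.erase p, q : ℕ) : ZMod p)) ↔ RtG a b p m)) : KerG a b m P J := by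
  constructor
  · intro p hp
    rw [Finset.mem_sdiff] at hp
    have pp := hpr p hp.1
    haveI : Fact p.Prime := ⟨pp⟩
    have hds := h1 p hp.1 hp.2
    rw [hdu] at hds
    push_cast at hds
    obtain ⟨r, hr⟩ := hds
    obtain ⟨s, hs⟩ := husq p hp.1
    have hu0 : (u : ZMod p) ≠ 0 := by
      rw [Ne, ZMod.intCast_zmod_eq_zero_iff_dvd]; exact hu p hp.1
    have hs0 : s ≠ 0 := by rintro rfl; apply hu0; rw [hs]; ring
    refine ⟨r / s, ?_⟩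
    rw [div_mul_div_comm, eq_div_iff (mul_ne_zero hs0 hs0), ← hs]
    push_cast
    exact hr
  · intro p hp
    have pp := hpr p (hJP hp)
    haveI : Fact p.Prime := ⟨pp⟩
    have hu0 : (u : ZMod p) ≠ 0 := by
      rw [Ne, ZMod.intCast_zmod_eq_zero_iff_dvd]; exact hu p (hJP hp)
    have h0 : ((∏ q ∈ J.erase p, q : ℕ) : ZMod p) ≠ 0 :=
      prod_ne (fun q hq => hpr q (hJP (Finset.mem_of_mem_erase hq))) (Finset.notMem_erase p J)
    rw [← sq_erase_iff hJP hp (husq p (hJP hp)) hu0 h0]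
    exact h2 p hp

/-- the prime factors of the elements of the Selmer group -/
theorem sel_dvd {d : ℤ} (hd : d ∈ SelSet a b) {q : ℕ} (hq : q.Prime) (h : (q : ℤ) ∣ d) :
    (q : ℤ) ∣ b := by
  haveI : Fact q.Prime := ⟨hq⟩
  exact (lsol_of_qs hd.1 (hd.2.2 q)).dvdB hd.1 h

/-- **the first inclusion** -/
theorem HG.sel_sub (hG : S_GOOD) (H : HG a b m P) {d : ℤ}
    (hd : d ∈ SelSet (a * (((∏ p ∈ P, p) * m : ℕ) : ℤ)) (b * (((∏ p ∈ P, p) * m : ℕ) : ℤ) ^ 2)) :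
    ∃ J ⊆ P, KerG a b m P J ∧ ∃ u ∈ SelSet a b, d = ((∏ q ∈ J, q : ℕ) : ℤ) * u := by
  classical
  obtain ⟨hdsf, hR, hloc⟩ := hd
  have h : ∀ (l : ℕ) [Fact l.Prime],
      LSol (a * (((∏ p ∈ P, p) * m : ℕ) : ℤ)) (b * (((∏ p ∈ P, p) * m : ℕ) : ℤ) ^ 2) d l :=
    fun l _ => lsol_of_qs hdsf (hloc l)
  obtain ⟨J, u, hJP, hJ, hdu, hu⟩ := H.shape hdsf
  have husf : Squarefree u := by rw [hdu] at hdsf; exact hdsf.of_mul_right
  have hub : ∀ q : ℕ, q.Prime → (q : ℤ) ∣ u → (q : ℤ) ∣ b := by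
    intro q hq hqu
    haveI : Fact q.Prime := ⟨hq⟩
    have hqd : (q : ℤ) ∣ d := hdu ▸ hqu.mul_left _
    have h2 := (h q).dvdB hdsf hqd
    have hqP := Nat.prime_iff_prime_int.1 hq
    rcases hqP.dvd_or_dvd h2 with h3 | h3
    · exact h3
    · exfalso
      rcases H.cop_case hq (hqP.dvd_of_dvd_pow h3) with h4 | h4
      · exact hu q h4 hqu
      · exact no_mG (H.two q hq h4).2.2 (h q) hdsf H.sqf (hqP.dvd_of_dvd_pow h3) hqd
  have husq : ∀ p ∈ P, IsSquare (u : ZMod p) := by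
    intro p hp
    haveI : Fact p.Prime := ⟨(H.pr p hp).1⟩
    exact usq (H.pr p hp) husf.ne_zero fun l hl _ hlu => (hub l hl hlu).mul_right _
  have hJr : Res a b (∏ q ∈ J, q) := res_prod fun p hp => (H.pr p (hJP hp)).2
  have hJ0 : (∏ q ∈ J, q) ≠ 0 := by have := hJr.1; omega
  have hD0 : ((∏ p ∈ P, p) * m) ≠ 0 := by have := H.res.1; omega
  refine ⟨J, hJP, ?_, u, ⟨husf, ?_, fun l hl => ?_⟩, hdu⟩
  · refine ker_ofG (fun p hp => (H.pr p hp).1) hJP hdu hu husq ?_ ?_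
    · intro p _ hpP hpJ
      have hpd : ¬ (p : ℤ) ∣ d := fun h1 => hpJ ((hJ p hpP).2 h1)
      have hpM : (p : ℤ) ∣ (((∏ p ∈ P, p) * m : ℕ) : ℤ) :=
        Int.natCast_dvd_natCast.2 ((Finset.dvd_prod_of_mem _ hpP).mul_right _)
      obtain ⟨⟨β, hβ⟩, hb0, -, -⟩ := split_b (H.pr p hpP)
      exact (h p).sq H.sqf hpd hpM (b := β) (by rw [hβ]; ring)
        (by rintro rfl; apply hb0; rw [hβ]; ring)
    · intro p _ hp
      obtain ⟨hb, hb0, -, -⟩ := split_b (H.pr p (hJP hp))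
      have hdd : d = p * (((∏ q ∈ J.erase p, q : ℕ) : ℤ) * u) := by
        rw [hdu, ← Finset.mul_prod_erase J (fun q => q) hp]
        push_cast
        ring
      exact rt1G hb hb0 (h p) hdsf H.sqf (erase_prod (hJP hp) m) hdd
  · rw [hdu] at hR
    exact (qs_scale (sq_real hD0).1 (sq_real hD0).2 (sq_real hJ0).1 (sq_real hJ0).2).1 hR
  · by_cases hbad : l = 2 ∨ (l : ℤ) ∣ b * (a ^ 2 - 4 * b)
    · have h1 := hloc l
      rw [hdu] at h1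
      exact (qs_scale (sq_bad H.res hbad).1 (sq_bad H.res hbad).2 (sq_bad hJr hbad).1
        (sq_bad hJr hbad).2).1 h1
    · rw [not_or] at hbad
      exact hG a b u l hbad.1 (fun h => hbad.2 (h.mul_right _)) (fun h => hbad.2 (h.mul_left _))
        fun h => hbad.2 ((hub l hl.out h).mul_right _)

/-- a point at the primes of `J` -/
theorem HG.at_J (H : HG a b m P) (hJP : J ⊆ P) (hK : KerG a b m P J) {u : ℤ} (hu0 : u ≠ 0)
    (hub : ∀ q : ℕ, q.Prime → (q : ℤ) ∣ u → (q : ℤ) ∣ b) (p : ℕ) [hp : Fact p.Prime] (hpJ : p ∈ J) :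
    Qs ℚ_[p] (a * (((∏ p ∈ P, p) * m : ℕ) : ℤ)) (b * (((∏ p ∈ P, p) * m : ℕ) : ℤ) ^ 2)
      (((∏ q ∈ J, q : ℕ) : ℤ) * u) := by
  have hsp := H.pr p (hJP hpJ)
  have p8 := hsp.2.1
  have p2 : p ≠ 2 := by rintro rfl; omega
  have n2 : (2 : ZMod p) ≠ 0 := by exact_mod_cast prime_cast_ne hp.out 2 Nat.prime_two p2
  obtain ⟨hb, hb0, hc, hc0⟩ := split_b hsp
  have husq := usq hsp hu0 fun l hl _ hlu => (hub l hl hlu).mul_right _
  have hpu : ¬ (p : ℤ) ∣ u := fun h => split_nd hsp ((hub p hp.out h).mul_right _)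
  have huz : (u : ZMod p) ≠ 0 := by rw [Ne, ZMod.intCast_zmod_eq_zero_iff_dvd]; exact hpu
  -- the square root of the discriminant
  obtain ⟨δ, hδ⟩ : IsSquare ((a ^ 2 - 4 * b : ℤ) : ℤ_[p]) := by
    apply sq_of_char p2
    rw [map_intCast]
    exact (quadraticChar_one_iff_isSquare hc0).2 hc
  obtain ⟨i2, hi2⟩ : ∃ i2 : ℤ_[p], i2 * 2 = 1 := by
    have h1 : IsUnit (2 : ℤ_[p]) := by
      by_contra h1
      have h2 : PadicInt.toZMod (p := p) 2 = 0 := by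
        rw [← RingHom.mem_ker, PadicInt.ker_toZMod]
        exact (IsLocalRing.mem_maximalIdeal _).2 h1
      rw [map_ofNat] at h2
      exact n2 h2
    obtain ⟨v, hv⟩ := h1
    exact ⟨(v⁻¹ : (ℤ_[p])ˣ), by rw [← hv]; exact v.inv_mul⟩
  set ρ : ℤ_[p] := (-(a : ℤ_[p]) + δ) * i2 with hρ
  have hρe : ρ ^ 2 + (a : ℤ_[p]) * ρ + (b : ℤ_[p]) = 0 := by
    rw [hρ]
    push_cast at hδ
    linear_combination (-(i2 ^ 2)) * hδ + (-(a : ℤ_[p]) * (-(a : ℤ_[p]) + δ) * i2 - 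
      (b : ℤ_[p]) * (1 + i2 * 2)) * (hi2)
  clear_value ρ
  have hmz : (m : ZMod p) ≠ 0 := by
    rw [Ne, ZMod.natCast_eq_zero_iff]
    exact H.not_m (hJP hpJ)
  set r : ZMod p := PadicInt.toZMod ρ with hr
  have hre : r ^ 2 + (a : ZMod p) * r + (b : ZMod p) = 0 := by
    have h1 := congrArg (PadicInt.toZMod (p := p)) hρe
    simp only [map_zero, map_add, map_pow, map_mul, map_intCast] at h1
    exact h1
  have hmr : ((m : ZMod p) * r) ^ 2 + (a : ZMod p) * m * ((m : ZMod p) * r) +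
      (b : ZMod p) * (m : ZMod p) ^ 2 = 0 := by
    linear_combination ((m : ZMod p) ^ 2) * hre
  have hr0 : r ≠ 0 := by
    intro h0
    rw [h0] at hre
    exact hb0 (by linear_combination hre)
  have hC0 : ((∏ q ∈ P \ J, q : ℕ) : ZMod p) ≠ 0 :=
    prod_ne (fun q hq => (H.pr q (Finset.mem_sdiff.1 hq).1).1)
      (fun h => (Finset.mem_sdiff.1 h).2 hpJ)
  have hk := hK.2 p hpJ
  rw [rtG_iff hb hb0 hmz hmr] at hk
  have hsq : IsSquare ((((∏ q ∈ P \ J, q : ℕ) : ZMod p) * ((m : ZMod p) * r)) * (u : ZMod p)) := by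
    refine IsSquare.mul ?_ husq
    have h1 : IsSquare ((∏ q ∈ P \ J, q : ℕ) : ZMod p) ↔ IsSquare ((m : ZMod p) * r) := by tauto
    have hX0 := mul_ne_zero hmz hr0
    rw [← quadraticChar_one_iff_isSquare hC0, ← quadraticChar_one_iff_isSquare hX0] at h1
    rw [← quadraticChar_one_iff_isSquare (mul_ne_zero hC0 hX0), map_mul]
    rcases quadraticChar_dichotomy hC0 with a | a <;> rcases quadraticChar_dichotomy hX0 with b | b
    · rw [a, b, one_mul]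
    · exact absurd (h1.1 a) (by rw [b]; norm_num)
    · exact absurd (h1.2 b) (by rw [a]; norm_num)
    · rw [a, b]; norm_num
  obtain ⟨s, hs⟩ := sq_of_char p2
    (u := (((∏ q ∈ P \ J, q : ℕ) : ℤ_[p]) * ((m : ℤ_[p]) * ρ)) * (u : ℤ_[p])) (by
      have e : PadicInt.toZMod ((((∏ q ∈ P \ J, q : ℕ) : ℤ_[p]) * ((m : ℤ_[p]) * ρ)) * (u : ℤ_[p])) =
          (((∏ q ∈ P \ J, q : ℕ) : ZMod p) * ((m : ZMod p) * r)) * (u : ZMod p) := by
        rw [map_mul, map_mul, map_mul, map_natCast, map_natCast, map_intCast]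
      rw [e]
      exact (quadraticChar_one_iff_isSquare
        (mul_ne_zero (mul_ne_zero hC0 (mul_ne_zero hmz hr0)) huz)).2 hsq)
  -- the point
  have hs' : (((∏ q ∈ P \ J, q : ℕ) : ℚ_[p]) * ((m : ℚ_[p]) * (ρ : ℚ_[p]))) * (u : ℚ_[p]) =
      (s : ℚ_[p]) * s := by
    have := congrArg (fun z : ℤ_[p] => (z : ℚ_[p])) hs
    simp only [PadicInt.coe_mul, PadicInt.coe_natCast, PadicInt.coe_intCast] at this
    exact this
  have hρe' : (ρ : ℚ_[p]) ^ 2 + (a : ℚ_[p]) * ρ + (b : ℚ_[p]) = 0 := by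
    have := congrArg (fun z : ℤ_[p] => (z : ℚ_[p])) hρe
    simp only [PadicInt.coe_add, PadicInt.coe_mul, PadicInt.coe_intCast, PadicInt.coe_pow,
      PadicInt.coe_zero] at this
    exact this
  have hMd : (((∏ p ∈ P, p) * m : ℕ) : ℤ) =
      ((∏ q ∈ J, q : ℕ) : ℤ) * (((∏ q ∈ P \ J, q : ℕ) : ℤ) * m) := by
    rw [← Finset.prod_sdiff hJP]
    push_cast
    ring
  have huK : (u : ℚ_[p]) ≠ 0 := by exact_mod_cast hu0
  have hJK : (((∏ q ∈ J, q : ℕ) : ℤ) : ℚ_[p]) ≠ 0 := by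
    have : (∏ q ∈ J, q) ≠ 0 := Finset.prod_ne_zero_iff.2 fun q hq => (H.pr q (hJP hq)).1.ne_zero
    exact_mod_cast this
  refine ⟨0, (s : ℚ_[p]), (u : ℚ_[p]), Or.inr huK, ?_⟩
  rw [hMd]
  set c1 : ℤ := ((∏ q ∈ J, q : ℕ) : ℤ) with hc1
  set c2 : ℤ := ((∏ q ∈ P \ J, q : ℕ) : ℤ) with hc2
  have hs'' : ((c2 : ℚ_[p]) * ((m : ℚ_[p]) * (ρ : ℚ_[p]))) * (u : ℚ_[p]) = (s : ℚ_[p]) ^ 2 := by
    rw [hc2, sq, ← hs']
    push_cast
    ring
  clear_value c1 c2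
  push_cast
  rw [show (s : ℚ_[p]) ^ 4 = ((s : ℚ_[p]) ^ 2) ^ 2 by ring, ← hs'']
  field_simp
  have e1 : (0 : ℚ_[p]) = (c1 : ℚ_[p]) * c2 ^ 2 * m ^ 2 * u ^ 3 * ((ρ : ℚ_[p]) ^ 2 + (a : ℚ_[p]) * ρ + b) := by
    rw [hρe', mul_zero]
  linear_combination e1

end Pool.Agent.U115.GE
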