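import Pool.Agent.U115.GE.Dens
import Pool.Agent.U115.GD.FinK

/-!
# The full law of the corank over the class
-/

set_option autoImplicit false
set_option linter.style.haveILetI false
set_option linter.unusedSectionVars false
set_option linter.unusedVariables false

open scoped Classical

namespace Pool.Agent.U115.GE

open Finset
open Pool.Agent.U115.XP (matF)
open Pool.Agent.U643.GE (t_CFG)
open Pool.Agent.U115.GD (ck GdK)

variable {a b : ℤ}

theorem gdK_matF (G : Pool.Agent.U115.GD.Cfg) (f : ℕ → ZMod 2) (k : ℕ) (S : Finset ℕ) :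
    GdK G f k S ↔ (S.filter fun p => Pool.Agent.U115.GD.Hc G p).card -
      (matF f (S.filter fun p => ¬ Pool.Agent.U115.GD.Hc G p)
        (S.filter fun p => Pool.Agent.U115.GD.Hc G p)).rank = k := by
  rw [Pool.Agent.U388.GD.t_RKK]
  constructor
  · rintro ⟨M, hM, h⟩
    have e : M = matF f (S.filter fun p => ¬ Pool.Agent.U115.GD.Hc G p)
        (S.filter fun p => Pool.Agent.U115.GD.Hc G p) := by
      ext i j
      rw [hM i j]
      rfl
    rw [← e]
    exact h
  · intro h
    exact ⟨_, fun i j => rfl, h⟩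

theorem class_gdK (hb : b ≠ 0) (hc : a ^ 2 - 4 * b ≠ 0) (nb : ¬ IsSquare b)
    (nc : ¬ IsSquare (a ^ 2 - 4 * b)) (D k : ℕ) :
    cork a b D = k ↔ GdK (cfg a b) (thetaG a b) k D.primeFactors := by
  obtain ⟨-, hres, -, -⟩ := t_CFG a b hb hc nb nc
  rw [gdK_matF]
  have e1 : (D.primeFactors.filter fun p => Pool.Agent.U115.GD.Hc (cfg a b) p) = spl a b D :=
    Finset.filter_congr fun p _ => (hres p).symm
  have e2 : (D.primeFactors.filter fun p => ¬ Pool.Agent.U115.GD.Hc (cfg a b) p) = ine a b D :=
    Finset.filter_congr fun p _ => not_congr (hres p).symm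
  rw [e1, e2]
  rfl

/-- **the law of the corank** -/
theorem densK (nb : ¬ IsSquare b) (nc : ¬ IsSquare (a ^ 2 - 4 * b)) (k : ℕ) :
    Filter.Tendsto (fun X : ℕ =>
      (((Icc 1 X).filter fun D => Class a b D ∧ cork a b D = k).card : ℝ) /
      (((Icc 1 X).filter fun D => Class a b D).card : ℝ)) Filter.atTop (nhds (ck k)) := by
  have hb : b ≠ 0 := by
    rintro rfl
    exact nb ⟨0, by norm_num⟩
  have hc : a ^ 2 - 4 * b ≠ 0 := by
    intro h
    exact nc ⟨0, by rw [h]; norm_num⟩
  obtain ⟨hok, -, -, hcl⟩ := t_CFG a b hb hc nb nc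
  have h := Pool.Agent.U115.GD.t_DENK (cfg a b) (thetaG a b) k hok
  refine h.congr fun X => congrArg₂ (fun a b : ℕ => (a : ℝ) / (b : ℝ)) ?_ ?_
  · refine congrArg Finset.card (Finset.ext fun D => ?_)
    rw [Finset.mem_filter, Finset.mem_filter]
    refine and_congr_right fun _ => ?_
    rw [← and_assoc, ← hcl]
    exact and_congr_right fun hF => (class_gdK hb hc nb nc D k).symm
  · refine congrArg Finset.card (Finset.ext fun D => ?_)
    rw [Finset.mem_filter, Finset.mem_filter]
    exact and_congr_right fun _ => (hcl D).symm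

end Pool.Agent.U115.GE
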