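import Pool.Agent.U115.GE.DensJ

/-!
# The group generated by elements of the class
-/

set_option autoImplicit false
set_option linter.style.haveILetI false
set_option linter.unusedSectionVars false
set_option linter.unusedVariables false

open scoped Classical

namespace Pool.Agent.U115.GE

open Finset

variable {a b : ℤ}

lemma sqf_unique {N N' g h : ℕ} (hN : Squarefree N) (hN' : Squarefree N') (hg : g ≠ 0) (hh : h ≠ 0)
    (e : N * g ^ 2 = N' * h ^ 2) : N = N' := by
  refine Nat.eq_of_factorization_eq hN.ne_zero hN'.ne_zero fun p => ?_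
  have h1 := congrArg (fun n : ℕ => n.factorization p) e
  rw [Nat.factorization_mul hN.ne_zero (pow_ne_zero 2 hg),
    Nat.factorization_mul hN'.ne_zero (pow_ne_zero 2 hh), Nat.factorization_pow,
    Nat.factorization_pow] at h1
  simp only [Finsupp.coe_add, Finsupp.coe_smul, Pi.add_apply, Pi.smul_apply, smul_eq_mul] at h1
  have h2 := hN.natFactorization_le_one p
  have h3 := hN'.natFactorization_le_one p
  omega

/-- the squarefree part of the product of the `m i`, `i ∈ T`: the product of the primes which divide an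
odd number of the `m i` -/
noncomputable def part {n : ℕ} (m : Fin n → ℕ) (T : Finset (Fin n)) : ℕ :=
  ∏ p ∈ (∏ i ∈ T, m i).primeFactors.filter (fun p => Odd (T.filter fun i => p ∣ m i).card), p

lemma part_pf {n : ℕ} (m : Fin n → ℕ) (T : Finset (Fin n)) : (part m T).primeFactors =
    (∏ i ∈ T, m i).primeFactors.filter (fun p => Odd (T.filter fun i => p ∣ m i).card) :=
  Nat.primeFactors_prod fun p hp => Nat.prime_of_mem_primeFactors (Finset.mem_filter.1 hp).1

lemma mem_part {n : ℕ} {m : Fin n → ℕ} (hm : ∀ i, m i ≠ 0) (T : Finset (Fin n)) (p : ℕ) :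
    p ∈ (part m T).primeFactors ↔ p.Prime ∧ Odd (T.filter fun i => p ∣ m i).card := by
  rw [part_pf, Finset.mem_filter, Nat.mem_primeFactors]
  constructor
  · rintro ⟨h1, h2⟩
    exact ⟨h1.1, h2⟩
  · rintro ⟨h1, h2⟩
    refine ⟨⟨h1, ?_, Finset.prod_ne_zero_iff.2 fun i _ => hm i⟩, h2⟩
    obtain ⟨i, hi⟩ := Finset.card_pos.1 h2.pos
    rw [Finset.mem_filter] at hi
    exact dvd_trans hi.2 (Finset.dvd_prod_of_mem _ hi.1)

lemma part_sqf {n : ℕ} (m : Fin n → ℕ) (T : Finset (Fin n)) : Squarefree (part m T) := by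
  unfold part
  refine Finset.squarefree_prod_of_pairwise_isCoprime (fun p hp q hq hpq => ?_) fun p hp =>
    (Nat.prime_of_mem_primeFactors (Finset.mem_filter.1 hp).1).squarefree
  exact Nat.coprime_iff_isRelPrime.1 ((Nat.coprime_primes
    (Nat.prime_of_mem_primeFactors (Finset.mem_filter.1 hp).1)
    (Nat.prime_of_mem_primeFactors (Finset.mem_filter.1 hq).1)).2 hpq)

lemma part_insert {n : ℕ} {m : Fin n → ℕ} (hm : ∀ i, m i ≠ 0) {T : Finset (Fin n)} {i : Fin n}
    (hi : i ∉ T) : part m (insert i T) = tws (part m T) (m i) := by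
  refine pf_inj (part_sqf _ _) (tws_sqf _ _) ?_
  ext p
  rw [mem_part hm, tws_pf, Finset.mem_symmDiff, mem_part hm, Nat.mem_primeFactors, Finset.filter_insert]
  by_cases hp : p.Prime
  · by_cases hpi : p ∣ m i
    · rw [if_pos hpi, Finset.card_insert_of_notMem (by simp [hi])]
      simp only [hp, true_and, hpi, hm i, ne_eq, not_false_eq_true, and_true, not_true_eq_false,
        and_false, false_or, Nat.odd_add_one]
    · rw [if_neg hpi]
      simp only [hp, true_and, hpi, false_and, not_false_eq_true, and_true, or_false]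
  · simp [hp]

/-- the squarefree parts of the products are in the class -/
theorem class_part {n : ℕ} {m : Fin n → ℕ} (hm : ∀ i, Class a b (m i)) (T : Finset (Fin n)) :
    Class a b (part m T) := by
  have h0 : ∀ i, m i ≠ 0 := fun i => (hm i).1.ne_zero
  induction T using Finset.induction_on with
  | empty =>
    have : part m (∅ : Finset (Fin n)) = 1 := by
      unfold part
      simp
    rw [this]
    refine ⟨squarefree_one, ⟨rfl, fun l hl hl2 _ => ⟨hl.one_lt.ne' ∘ fun h => Nat.dvd_one.1 h, ?_⟩⟩, ?_⟩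
    · rw [Nat.cast_one]
      exact IsSquare.one
    · intro p hp
      rw [Nat.primeFactors_one] at hp
      exact absurd hp (Finset.notMem_empty _)
  | insert i T hi ih =>
    rw [part_insert h0 hi]
    exact class_tws ih (hm i)

theorem part_mul {n : ℕ} {m : Fin n → ℕ} (hm : ∀ i, Squarefree (m i)) (T : Finset (Fin n)) :
    ∃ g : ℕ, g ≠ 0 ∧ part m T * g ^ 2 = ∏ i ∈ T, m i := by
  have h0 : ∀ i, m i ≠ 0 := fun i => (hm i).ne_zero
  induction T using Finset.induction_on with
  | empty =>
    refine ⟨1, one_ne_zero, ?_⟩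
    unfold part
    simp
  | insert i T hi ih =>
    obtain ⟨g, hg, e⟩ := ih
    have h1 := tws_mul (part_sqf m T) (hm i)
    set h := ∏ p ∈ (part m T).primeFactors ∩ (m i).primeFactors, p with hh
    have hh0 : h ≠ 0 := by
      rw [hh]
      refine Finset.prod_ne_zero_iff.2 fun p hp => ?_
      exact (Nat.prime_of_mem_primeFactors (Finset.mem_inter.1 hp).1).ne_zero
    refine ⟨g * h, mul_ne_zero hg hh0, ?_⟩
    rw [part_insert h0 hi, Finset.prod_insert hi, ← e]
    calc tws (part m T) (m i) * (g * h) ^ 2 = (tws (part m T) (m i) * (h * h)) * g ^ 2 := by ring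
      _ = _ := by rw [h1]; ring

/-- the squarefree numbers in the square classes of the products are the `tws D (part m T)` -/
theorem eq_tws {n : ℕ} {m : Fin n → ℕ} (hm : ∀ i, Squarefree (m i)) {D : ℕ} (hD : Squarefree D)
    (T : Finset (Fin n)) {N g : ℕ} (hN : Squarefree N) (e : N * g ^ 2 = D * ∏ i ∈ T, m i) :
    N = tws D (part m T) := by
  obtain ⟨g1, hg1, e1⟩ := part_mul hm T
  have e2 := tws_mul hD (part_sqf m T)
  set h := ∏ p ∈ D.primeFactors ∩ (part m T).primeFactors, p with hh
  have hh0 : h ≠ 0 := by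
    rw [hh]
    refine Finset.prod_ne_zero_iff.2 fun p hp => ?_
    exact (Nat.prime_of_mem_primeFactors (Finset.mem_inter.1 hp).1).ne_zero
  have hg : g ≠ 0 := by
    rintro rfl
    have h1 : D * ∏ i ∈ T, m i ≠ 0 := mul_ne_zero hD.ne_zero
      (Finset.prod_ne_zero_iff.2 fun i _ => (hm i).ne_zero)
    rw [← e] at h1
    exact h1 (by norm_num)
  refine sqf_unique hN (tws_sqf _ _) hg (mul_ne_zero hh0 hg1) (h := h * g1) ?_
  rw [e, ← e1]
  calc D * (part m T * g1 ^ 2) = D * part m T * g1 ^ 2 := by ring
    _ = tws D (part m T) * (h * h) * g1 ^ 2 := by rw [e2]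
    _ = _ := by ring

end Pool.Agent.U115.GE
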