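import Pool.Agent.U115.GE.Dens
import Pool.Agent.U2.GD.LOW

/-!
# The class is infinite
-/

set_option autoImplicit false
set_option linter.style.haveILetI false
set_option linter.unusedSectionVars false
set_option linter.unusedVariables false

open scoped Classical

namespace Pool.Agent.U115.GE

open Finset Filter
open Pool.Agent.U643.GE (t_CFG)

variable {a b : ℤ}

/-- the class has arbitrarily many elements -/
theorem class_many (nb : ¬ IsSquare b) (nc : ¬ IsSquare (a ^ 2 - 4 * b)) (N : ℕ) :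
    ∃ ℳ : Finset ℕ, ℳ.card = N ∧ ∀ m ∈ ℳ, Class a b m := by
  have hb : b ≠ 0 := by
    rintro rfl
    exact nb ⟨0, by norm_num⟩
  have hc : a ^ 2 - 4 * b ≠ 0 := by
    intro h
    exact nc ⟨0, by rw [h]; norm_num⟩
  obtain ⟨hok, -, -, hcl⟩ := t_CFG a b hb hc nb nc
  obtain ⟨c, X₀, hc0, h⟩ := Pool.Agent.U2.GD.t_LOW Pool.Agent.U2.GD.t_MER Pool.Agent.U2.GD.t_CHE
    (cfg a b) hok
  have hdl : 0 ≤ Pool.Agent.U115.GD.dl (cfg a b) := by
    unfold Pool.Agent.U115.GD.dl Pool.Agent.U115.GD.da Pool.Agent.U115.GD.db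
    positivity
  have hlog : Tendsto (fun x : ℝ => x / Real.log x) atTop atTop := by
    have h1 : Tendsto (fun x : ℝ => Real.log x / x) atTop (nhds 0) :=
      Real.isLittleO_log_id_atTop.tendsto_div_nhds_zero
    have h2 : Tendsto (fun x : ℝ => Real.log x / x) atTop (nhdsWithin 0 (Set.Ioi 0)) := by
      refine tendsto_nhdsWithin_iff.2 ⟨h1, ?_⟩
      filter_upwards [eventually_gt_atTop (1 : ℝ)] with x hx
      exact div_pos (Real.log_pos hx) (by linarith)
    refine h2.inv_tendsto_nhdsGT_zero.congr fun x => ?_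
    rw [Pi.inv_apply, inv_div]
  have h3 := (hlog.comp tendsto_natCast_atTop_atTop).eventually (eventually_ge_atTop (N / c))
  obtain ⟨X, hX1, hX2, hX3⟩ := (h3.and ((eventually_ge_atTop X₀).and
    (eventually_ge_atTop 3))).exists
  have h4 := h X hX2
  have e2 := Pool.Agent.U643.GD.card_eq (cfg a b) X (fun _ => True)
  rw [Finset.filter_true] at e2
  simp only [and_true] at e2
  have e3 : ((Icc 1 X).filter fun D => Class a b D).card =
      (Pool.Agent.U115.GD.SS (cfg a b) X).card := by
    rw [← e2]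
    refine congrArg Finset.card (Finset.ext fun D => ?_)
    rw [Finset.mem_filter, Finset.mem_filter, hcl]
  have h5 : (N : ℝ) ≤ (((Icc 1 X).filter fun D => Class a b D).card : ℝ) := by
    rw [e3]
    refine le_trans ?_ h4
    have hX3' : (3 : ℝ) ≤ (X : ℝ) := by exact_mod_cast hX3
    have hl1 : (1 : ℝ) ≤ Real.log X := by
      rw [Real.le_log_iff_exp_le (by linarith)]
      exact le_trans (by have := Real.exp_one_lt_d9; linarith) hX3'
    have h6 : (Real.log X)⁻¹ ≤ (Real.log X) ^ (-1 + Pool.Agent.U115.GD.dl (cfg a b) : ℝ) := by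
      rw [← Real.rpow_neg_one]
      exact Real.rpow_le_rpow_of_exponent_le hl1 (by linarith)
    have h7 : (N / c : ℝ) ≤ X / Real.log X := hX1
    calc (N : ℝ) = c * (N / c) := by field_simp
      _ ≤ c * (X / Real.log X) := by gcongr
      _ = c * X * (Real.log X)⁻¹ := by ring
      _ ≤ _ := by gcongr
  have h6 : N ≤ ((Icc 1 X).filter fun D => Class a b D).card := by exact_mod_cast h5
  obtain ⟨ℳ, h7, h8⟩ := Finset.exists_subset_card_eq h6
  exact ⟨ℳ, h8, fun m hm => (Finset.mem_filter.1 (h7 hm)).2⟩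

end Pool.Agent.U115.GE
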