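import Pool.Agent.U115.GE.Fin
import Pool.Agent.U171.GE.CNV2

/-!
# The kernel of the matrix has at most `2 ^ rank · #Ш[2]` elements
-/

set_option autoImplicit false
set_option linter.style.haveILetI false
set_option linter.unusedSectionVars false
set_option linter.unusedVariables false

attribute [-instance] DivisionRing.toRatAlgebra

open scoped Classical

namespace Pool.Agent.U115.GE

open Finset
open Pool.Agent.Y682 (wc)
open Pool.Agent.TH841.NF.D (rk Sha)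

variable {a b : ℤ} {m : ℕ} {P : Finset ℕ}

/-- the kernel has at most `2 ^ rank · #Ш[2]` elements -/
theorem HG.conv2 (hG : S_GOOD) (hB : S_BND) (H : HG a b m P) (nb : ¬ IsSquare b)
    (nc : ¬ IsSquare (a ^ 2 - 4 * b)) {D : ℕ} (hDe : D = (∏ p ∈ P, p) * m) :
    kapG a b m P ≤ 2 ^ rk (twE a b D) * Nat.card {x : Sha (twE a b D) // 2 • x = 0} := by
  have hfin := (H.bound hG hB hDe).1
  have hD0 : (D : ℤ) ≠ 0 := by exact_mod_cast H.ne0 hDe
  have hDq : (D : ℚ) ≠ 0 := by exact_mod_cast H.ne0 hDe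
  rw [twE_eq] at hfin ⊢
  have nb' : ¬ IsSquare ((b * (D : ℤ) ^ 2 : ℤ) : ℚ) := by
    rintro ⟨s, hs⟩
    apply nb
    rw [← Rat.isSquare_intCast_iff]
    refine ⟨s / D, ?_⟩
    push_cast at hs
    rw [div_mul_div_comm, eq_div_iff (mul_ne_zero hDq hDq), ← hs]
    ring
  have nc' : ¬ IsSquare ((((a * (D : ℤ) : ℤ)) : ℚ) ^ 2 - 4 * ((b * (D : ℤ) ^ 2 : ℤ) : ℚ)) := by
    rintro ⟨s, hs⟩
    apply nc
    rw [← Rat.isSquare_intCast_iff]
    refine ⟨s / D, ?_⟩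
    push_cast at hs ⊢
    rw [div_mul_div_comm, eq_div_iff (mul_ne_zero hDq hDq), ← hs]
    ring
  have hJpr : ∀ J ⊆ P, ∀ q ∈ J, q.Prime := fun J hJ q hq => (H.pr q (hJ hq)).1
  have hJpos : ∀ J ⊆ P, 0 < ((∏ q ∈ J, q : ℕ) : ℤ) := fun J hJ => by
    exact_mod_cast Finset.prod_pos fun q hq => (hJpr J hJ q hq).pos
  have hDe' : (((∏ p ∈ P, p) * m : ℕ) : ℤ) = (D : ℤ) := by rw [hDe]
  set KK := P.powerset.filter fun J => KerG a b m P J with hKK
  have hKP : ∀ J ∈ KK, J ⊆ P := fun J hJ => Finset.mem_powerset.1 (Finset.mem_filter.1 hJ).1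
  have hinj : Set.InjOn (fun J : Finset ℕ => ((∏ q ∈ J, q : ℕ) : ℤ)) (↑KK : Set (Finset ℕ)) := by
    have key : ∀ J J' : Finset ℕ, J ⊆ P → J' ⊆ P →
        ((∏ q ∈ J, q : ℕ) : ℤ) = ((∏ q ∈ J', q : ℕ) : ℤ) → J ⊆ J' := by
      intro J J' h1 h1' he p hp
      by_contra hp'
      have h2 : (p : ℤ) ∣ ((∏ q ∈ J, q : ℕ) : ℤ) :=
        Int.natCast_dvd_natCast.2 (Finset.dvd_prod_of_mem _ hp)
      rw [he] at h2
      exact ndvd_prod (hJpr J' h1') (hJpr J h1 p hp) hp' h2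
    intro J hJ J' hJ' he
    exact Finset.Subset.antisymm
      (key J J' (hKP J (Finset.mem_coe.1 hJ)) (hKP J' (Finset.mem_coe.1 hJ')) he)
      (key J' J (hKP J' (Finset.mem_coe.1 hJ')) (hKP J (Finset.mem_coe.1 hJ)) he.symm)
  have hcard : (KK.image fun J : Finset ℕ => ((∏ q ∈ J, q : ℕ) : ℤ)).card = kapG a b m P :=
    Finset.card_image_of_injOn hinj
  rw [← hcard]
  refine Pool.Agent.U171.GE.t_CNV2 _ _ (H.b0 hDe) (H.c0 hDe) nb' nc' _ ?_ ?_ hfin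
  · intro d hd
    obtain ⟨J, hJ, rfl⟩ := Finset.mem_image.1 hd
    refine ⟨hJpos J (hKP J hJ), fun p hp => ?_⟩
    have h1 := H.dual.sel_sup hG (hKP J hJ) ((ker_dual H (hKP J hJ)).2 (Finset.mem_filter.1 hJ).2)
      (u := 1) ⟨squarefree_one, qs_sq ⟨1, by norm_num⟩, fun p _ => qs_sq ⟨1, by norm_num⟩⟩
    have h2 := h1.2.2 p
    rw [hDe', mul_one] at h2
    have e1 : -2 * a * (D : ℤ) = -2 * (a * (D : ℤ)) := by ring
    have e2 : (a ^ 2 - 4 * b) * (D : ℤ) ^ 2 = (a * (D : ℤ)) ^ 2 - 4 * (b * (D : ℤ) ^ 2) := by ring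
    rw [e1, e2] at h2
    exact h2
  · intro d hd e he hne
    obtain ⟨x, hxK, rfl⟩ := Finset.mem_image.1 hd
    obtain ⟨y, hyK, rfl⟩ := Finset.mem_image.1 he
    have hx := hKP x hxK
    have hy := hKP y hyK
    have hsd : ((x \ y) ∪ (y \ x)).Nonempty := by
      by_contra hcon
      rw [Finset.not_nonempty_iff_eq_empty, Finset.union_eq_empty,
        Finset.sdiff_eq_empty_iff_subset, Finset.sdiff_eq_empty_iff_subset] at hcon
      exact hne (by rw [Finset.Subset.antisymm hcon.1 hcon.2])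
    have hTp : ∀ q ∈ (x \ y) ∪ (y \ x), q ∈ P := by
      intro q hq
      rcases Finset.mem_union.1 hq with h | h
      · exact hx (Finset.mem_sdiff.1 h).1
      · exact hy (Finset.mem_sdiff.1 h).1
    have hpr : (((((∏ q ∈ x, q : ℕ) : ℤ) * ((∏ q ∈ y, q : ℕ) : ℤ) : ℤ)) : ℚ) =
        ((∏ q ∈ (x \ y) ∪ (y \ x), q : ℕ) : ℚ) * ((∏ q ∈ x ∩ y, q : ℕ) : ℚ) ^ 2 := by
      have := Pool.Agent.Y698.SG.prod_symm x y
      exact_mod_cast this
    have he0 : ((∏ q ∈ x ∩ y, q : ℕ) : ℚ) ≠ 0 := by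
      have := (hJpos (x ∩ y) (Finset.inter_subset_left.trans hx)).ne'
      exact_mod_cast this
    refine ⟨?_, ?_⟩
    · rw [hpr]
      rintro ⟨s, hs⟩
      refine not_sq_prod (fun q hq => (H.pr q (hTp q hq)).1) hsd
        ⟨s / ((∏ q ∈ x ∩ y, q : ℕ) : ℚ), ?_⟩
      rw [div_mul_div_comm, eq_div_iff (mul_ne_zero he0 he0), ← hs]
      ring
    · rw [hpr]
      rintro ⟨s, hs⟩
      refine not_sq_prod_mul (c := a ^ 2 - 4 * b) (fun q hq => (H.pr q (hTp q hq)).1) hsd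
        (fun q hq h => split_nd (H.pr q (hTp q hq)) (h.mul_left _))
        ⟨s / (((∏ q ∈ x ∩ y, q : ℕ) : ℚ) * D), ?_⟩
      have hne0 := mul_ne_zero he0 hDq
      rw [div_mul_div_comm, eq_div_iff (mul_ne_zero hne0 hne0), ← hs]
      push_cast
      ring

end Pool.Agent.U115.GE
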