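import Pool.Agent.U115.GE.DensK
import Pool.Agent.U115.GD.FinJ

/-!
# The joint law of the twists by `D m`, `m` in a finite subset of the class
-/

set_option autoImplicit false
set_option linter.style.haveILetI false
set_option linter.unusedSectionVars false
set_option linter.unusedVariables false

open scoped Classical

namespace Pool.Agent.U115.GE

open Finset
open Pool.Agent.U643.GE (t_CFG)
open Pool.Agent.U115.GD (GdJ OkW)

variable {a b : ℤ}

/-- the squarefree part of the product of two squarefree numbers -/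
def tws (D m : ℕ) : ℕ := ∏ p ∈ symmDiff D.primeFactors m.primeFactors, p

lemma tws_prime {D m p : ℕ} (hp : p ∈ symmDiff D.primeFactors m.primeFactors) : p.Prime := by
  rw [Finset.mem_symmDiff] at hp
  rcases hp with h | h
  · exact Nat.prime_of_mem_primeFactors h.1
  · exact Nat.prime_of_mem_primeFactors h.1

lemma tws_pf (D m : ℕ) : (tws D m).primeFactors = symmDiff D.primeFactors m.primeFactors :=
  Nat.primeFactors_prod fun p hp => tws_prime hp

lemma tws_sqf (D m : ℕ) : Squarefree (tws D m) := by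
  unfold tws
  refine Finset.squarefree_prod_of_pairwise_isCoprime (fun p hp q hq hpq => ?_) fun p hp =>
    (tws_prime hp).squarefree
  exact Nat.coprime_iff_isRelPrime.1 ((Nat.coprime_primes (tws_prime hp) (tws_prime hq)).2 hpq)

lemma tws_mul {D m : ℕ} (hD : Squarefree D) (hm : Squarefree m) :
    tws D m * ((∏ p ∈ D.primeFactors ∩ m.primeFactors, p) *
      (∏ p ∈ D.primeFactors ∩ m.primeFactors, p)) = D * m := by
  have e1 : symmDiff D.primeFactors m.primeFactors =
      (D.primeFactors \ m.primeFactors) ∪ (m.primeFactors \ D.primeFactors) := rfl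
  have h1 : Disjoint (D.primeFactors \ m.primeFactors) (m.primeFactors \ D.primeFactors) :=
    disjoint_sdiff_sdiff
  have e2 : tws D m = (∏ p ∈ D.primeFactors \ m.primeFactors, p) *
      ∏ p ∈ m.primeFactors \ D.primeFactors, p := by
    unfold tws
    rw [e1, Finset.prod_union h1]
  have e3 : (∏ p ∈ D.primeFactors \ m.primeFactors, p) *
      ∏ p ∈ D.primeFactors ∩ m.primeFactors, p = D := by
    rw [mul_comm, ← Finset.prod_union (Finset.disjoint_sdiff_inter _ _).symm, Finset.union_comm,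
      Finset.sdiff_union_inter]
    exact Nat.prod_primeFactors_of_squarefree hD
  have e4 : (∏ p ∈ m.primeFactors \ D.primeFactors, p) *
      ∏ p ∈ D.primeFactors ∩ m.primeFactors, p = m := by
    rw [Finset.inter_comm, mul_comm, ← Finset.prod_union (Finset.disjoint_sdiff_inter _ _).symm,
      Finset.union_comm, Finset.sdiff_union_inter]
    exact Nat.prod_primeFactors_of_squarefree hm
  rw [e2]
  calc _ = ((∏ p ∈ D.primeFactors \ m.primeFactors, p) *
      ∏ p ∈ D.primeFactors ∩ m.primeFactors, p) * ((∏ p ∈ m.primeFactors \ D.primeFactors, p) *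
      ∏ p ∈ D.primeFactors ∩ m.primeFactors, p) := by ring
    _ = D * m := by rw [e3, e4]

lemma odd_sq_mod {g : ℕ} (hg : g % 2 = 1) : (g * g) % 8 = 1 := by
  rw [Nat.mul_mod]
  have : g % 8 = 1 ∨ g % 8 = 3 ∨ g % 8 = 5 ∨ g % 8 = 7 := by omega
  rcases this with h | h | h | h <;> rw [h]

lemma res_of_sq {n g : ℕ} (h : Res a b (n * (g * g))) : Res a b n := by
  obtain ⟨h1, h2⟩ := h
  have hg : g % 2 = 1 := by
    rcases Nat.mod_two_eq_zero_or_one g with h0 | h0
    · exfalso
      obtain ⟨k, rfl⟩ := Nat.dvd_of_mod_eq_zero h0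
      have : n * (2 * k * (2 * k)) = 2 * (n * (k * (2 * k))) := by ring
      omega
    · exact h0
  refine ⟨?_, fun l hl hl2 hlb => ?_⟩
  · have h3 := odd_sq_mod hg
    rw [Nat.mul_mod, h3, mul_one, Nat.mod_mod] at h1
    exact h1
  · obtain ⟨h3, h4⟩ := h2 l hl hl2 hlb
    haveI : Fact l.Prime := ⟨hl⟩
    refine ⟨fun h5 => h3 (dvd_mul_of_dvd_left h5 _), ?_⟩
    have hg0 : (g : ZMod l) ≠ 0 := by
      intro h5
      apply h3
      rw [ZMod.natCast_eq_zero_iff] at h5
      exact dvd_mul_of_dvd_right (dvd_mul_of_dvd_left h5 _) _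
    obtain ⟨r, hr⟩ := h4
    push_cast at hr
    refine ⟨r / g, ?_⟩
    field_simp
    rw [sq, sq, ← hr]

lemma res_mulJ {m n : ℕ} (hm : Res a b m) (hn : Res a b n) : Res a b (m * n) := by
  refine ⟨?_, fun l hl hl2 hlb => ?_⟩
  · rw [Nat.mul_mod, hm.1, hn.1]
  · obtain ⟨h1, h2⟩ := hm.2 l hl hl2 hlb
    obtain ⟨h3, h4⟩ := hn.2 l hl hl2 hlb
    refine ⟨fun h => (hl.dvd_mul.1 h).elim h1 h3, ?_⟩
    push_cast
    exact h2.mul h4

/-- the class is closed -/
theorem class_tws {D m : ℕ} (hD : Class a b D) (hm : Class a b m) : Class a b (tws D m) := by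
  refine ⟨tws_sqf D m, ?_, ?_⟩
  · refine res_of_sq (g := ∏ p ∈ D.primeFactors ∩ m.primeFactors, p) ?_
    rw [tws_mul hD.1 hm.1]
    exact res_mulJ hD.2.1 hm.2.1
  · intro p hp
    rw [tws_pf, Finset.mem_symmDiff] at hp
    rcases hp with h | h
    · exact hD.2.2 p h.1
    · exact hm.2.2 p h.1

theorem pf_inj {m n : ℕ} (hm : Squarefree m) (hn : Squarefree n)
    (h : m.primeFactors = n.primeFactors) : m = n := by
  rw [← Nat.prod_primeFactors_of_squarefree hm, h, Nat.prod_primeFactors_of_squarefree hn]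

/-- **the joint law** -/
theorem densJ (nb : ¬ IsSquare b) (nc : ¬ IsSquare (a ^ 2 - 4 * b)) (ℳ : Finset ℕ)
    (hM : ∀ m ∈ ℳ, Class a b m) :
    Filter.Tendsto (fun X : ℕ =>
      (((Icc 1 X).filter fun D => Class a b D ∧ ∀ m ∈ ℳ, cork a b (tws D m) = 0).card : ℝ) /
      (((Icc 1 X).filter fun D => Class a b D).card : ℝ)) Filter.atTop
      (nhds (Pool.Agent.Y703.CQ.c2 ^ ℳ.card)) := by
  have hb : b ≠ 0 := by
    rintro rfl
    exact nb ⟨0, by norm_num⟩
  have hc : a ^ 2 - 4 * b ≠ 0 := by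
    intro h
    exact nc ⟨0, by rw [h]; norm_num⟩
  obtain ⟨hok, hres, hine, hcl⟩ := t_CFG a b hb hc nb nc
  set 𝒰 : Finset (Finset ℕ) := ℳ.image Nat.primeFactors with h𝒰
  have hcard : 𝒰.card = ℳ.card := by
    rw [h𝒰]
    refine Finset.card_image_of_injOn fun m hm n hn h => ?_
    exact pf_inj (hM m hm).1 (hM n hn).1 h
  have hW : OkW (cfg a b) (𝒰.biUnion id) 𝒰 := by
    refine ⟨fun u hu => ?_, fun U hU => Finset.subset_biUnion_of_mem id hU⟩
    rw [Finset.mem_biUnion] at hu
    obtain ⟨U, hU, huU⟩ := hu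
    rw [h𝒰, Finset.mem_image] at hU
    obtain ⟨m, hm, rfl⟩ := hU
    have hu' : u ∈ m.primeFactors := huU
    have hp := Nat.prime_of_mem_primeFactors hu'
    have h1 : Pool.Agent.U115.GD.Sp (cfg a b) u ∨ Pool.Agent.U115.GD.In (cfg a b) u := by
      rcases (hM m hm).2.2 u hu' with h | h
      · exact Or.inl ⟨h.1, (hres u).1 h.2⟩
      · exact Or.inr ((hine u).1 h)
    refine ⟨hp, Pool.Agent.U115.GD.ne_two hok h1, fun h2 => ?_⟩
    have h3 := Pool.Agent.U115.GD.cop_of hok h1
    rw [Nat.Prime.coprime_iff_not_dvd hp] at h3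
    exact h3 (hok.hL u h2).2.2
  have h := Pool.Agent.U115.GD.t_JDEN (cfg a b) (thetaG a b) (𝒰.biUnion id) 𝒰 hok hW
  rw [hcard] at h
  refine h.congr fun X => congrArg₂ (fun a b : ℕ => (a : ℝ) / (b : ℝ)) ?_ ?_
  · refine congrArg Finset.card (Finset.ext fun D => ?_)
    rw [Finset.mem_filter, Finset.mem_filter]
    refine and_congr_right fun _ => ?_
    rw [← and_assoc, ← hcl]
    refine and_congr_right fun _ => ?_
    unfold GdJ
    rw [h𝒰, Finset.forall_mem_image]
    refine forall₂_congr fun m hm => ?_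
    rw [class_gd hb hc nb nc, tws_pf]
  · refine congrArg Finset.card (Finset.ext fun D => ?_)
    rw [Finset.mem_filter, Finset.mem_filter]
    exact and_congr_right fun _ => (hcl D).symm

end Pool.Agent.U115.GE
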