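import Pool.Agent.U115.GE.Mat
import Pool.Agent.U115.GE.Conv

/-!
# Rank, `Ш[2]` and the kernel of the matrix
-/

set_option autoImplicit false
set_option linter.style.haveILetI false
set_option linter.unusedSectionVars false
set_option linter.unusedVariables false

attribute [-instance] DivisionRing.toRatAlgebra

open scoped Classical

namespace Pool.Agent.U115.GE

open Finset
open Pool.Agent.Y682 (wc)
open Pool.Agent.TH841.NF.D (rk Sha)
open Pool.Agent.U115.XP (fin_wc pow_tors)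

/-- the twist -/
noncomputable def twE (a b : ℤ) (D : ℕ) : WeierstrassCurve ℚ :=
  wc ((a : ℚ) * (D : ℚ)) ((b : ℚ) * (D : ℚ) ^ 2)

theorem twE_eq (a b : ℤ) (D : ℕ) :
    twE a b D = wc (((a * (D : ℤ) : ℤ)) : ℚ) (((b * (D : ℤ) ^ 2 : ℤ)) : ℚ) := by
  unfold twE
  push_cast
  rfl

variable {a b : ℤ} {m : ℕ} {P : Finset ℕ}

theorem HG.ne0 (H : HG a b m P) {D : ℕ} (hDe : D = (∏ p ∈ P, p) * m) : D ≠ 0 := by
  have := H.sqf.ne_zero
  rw [← hDe] at this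
  exact_mod_cast this

theorem HG.b0 (H : HG a b m P) {D : ℕ} (hDe : D = (∏ p ∈ P, p) * m) : b * (D : ℤ) ^ 2 ≠ 0 :=
  mul_ne_zero H.hb (pow_ne_zero 2 (by exact_mod_cast H.ne0 hDe))

theorem HG.c0 (H : HG a b m P) {D : ℕ} (hDe : D = (∏ p ∈ P, p) * m) :
    (a * (D : ℤ)) ^ 2 - 4 * (b * (D : ℤ) ^ 2) ≠ 0 := by
  have e : (a * (D : ℤ)) ^ 2 - 4 * (b * (D : ℤ) ^ 2) = (a ^ 2 - 4 * b) * (D : ℤ) ^ 2 := by ring
  rw [e]
  exact mul_ne_zero H.hc (pow_ne_zero 2 (by exact_mod_cast H.ne0 hDe))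

/-- `4 · 2 ^ rank · #Ш[2] ≤ κ² · #Sel · #Sel'` -/
theorem HG.bound (hG : S_GOOD) (hB : S_BND) (H : HG a b m P) {D : ℕ}
    (hDe : D = (∏ p ∈ P, p) * m) :
    Finite {x : Sha (twE a b D) // 2 • x = 0} ∧
    4 * 2 ^ rk (twE a b D) * Nat.card {x : Sha (twE a b D) // 2 • x = 0} ≤
      kapG a b m P ^ 2 * (sel a b * sel (-2 * a) (a ^ 2 - 4 * b)) := by
  have h1 := hB (a * (D : ℤ)) (b * (D : ℤ) ^ 2) (H.b0 hDe) (H.c0 hDe)
  have h2 := H.sel_eq hG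
  have h3 := H.sel_eq' hG
  rw [← hDe] at h2 h3
  rw [h2, h3] at h1
  rw [twE_eq]
  refine ⟨h1.1, h1.2.trans (le_of_eq ?_)⟩
  ring

theorem not_sq_prod {T : Finset ℕ} (hT : ∀ q ∈ T, q.Prime) (hne : T.Nonempty) :
    ¬ IsSquare (((∏ q ∈ T, q : ℕ) : ℚ)) := by
  rw [Rat.isSquare_natCast_iff]
  rintro ⟨s, hs⟩
  have h1 : Squarefree (∏ q ∈ T, q) := by
    refine Finset.squarefree_prod_of_pairwise_isCoprime (fun p hp q hq hpq => ?_)
      fun p hp => (hT p hp).squarefree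
    show IsRelPrime p q
    rw [← Nat.coprime_iff_isRelPrime]
    exact (Nat.coprime_primes (hT p hp) (hT q hq)).mpr hpq
  have h2 : IsUnit s := h1 s (by rw [hs])
  rw [Nat.isUnit_iff] at h2
  obtain ⟨q, hq⟩ := hne
  have h3 : q ∣ ∏ q ∈ T, q := Finset.dvd_prod_of_mem _ hq
  rw [hs, h2] at h3
  exact (hT q hq).one_lt.ne' (Nat.dvd_one.1 h3)

/-- a product of different primes prime to `c`, times a nonsquare `c`, is not a square -/
theorem not_sq_prod_mul {T : Finset ℕ} (hT : ∀ q ∈ T, q.Prime) (hne : T.Nonempty) {c : ℤ}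
    (hc : ∀ q ∈ T, ¬ (q : ℤ) ∣ c) : ¬ IsSquare ((((∏ q ∈ T, q : ℕ) : ℤ) * c : ℤ) : ℚ) := by
  rw [Rat.isSquare_intCast_iff]
  rintro ⟨s, hs⟩
  obtain ⟨q, hq⟩ := hne
  have hqP : Prime (q : ℤ) := Nat.prime_iff_prime_int.1 (hT q hq)
  have e : ((∏ q ∈ T, q : ℕ) : ℤ) = (q : ℤ) * ((∏ q ∈ T.erase q, q : ℕ) : ℤ) := by
    rw [← Finset.mul_prod_erase T (fun q => q) hq]
    push_cast
    rfl
  have h1 : (q : ℤ) ∣ s * s := by
    rw [← hs, e]
    exact ⟨((∏ q ∈ T.erase q, q : ℕ) : ℤ) * c, by ring⟩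
  have h2 : (q : ℤ) ∣ s := (hqP.dvd_or_dvd h1).elim id id
  obtain ⟨t, ht⟩ := h2
  have h3 : ((∏ q ∈ T.erase q, q : ℕ) : ℤ) * c = q * (t * t) := by
    have h4 : (q : ℤ) * (((∏ q ∈ T.erase q, q : ℕ) : ℤ) * c) = q * (q * (t * t)) := by
      rw [ht, e] at hs
      linear_combination hs
    exact mul_left_cancel₀ hqP.ne_zero h4
  rcases hqP.dvd_or_dvd (Dvd.intro _ h3.symm : (q : ℤ) ∣ _ * c) with h5 | h5
  · exact ndvd_prod (fun r hr => hT r (Finset.mem_of_mem_erase hr)) (hT q hq)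
      (Finset.notMem_erase q T) h5
  · exact hc q hq h5

/-- if there are finitely many points, the kernel embeds in `Ш[2]` -/
theorem HG.conv (hG : S_GOOD) (hB : S_BND) (H : HG a b m P) (nb : ¬ IsSquare b)
    (nc : ¬ IsSquare (a ^ 2 - 4 * b)) {D : ℕ} (hDe : D = (∏ p ∈ P, p) * m)
    (hf : Finite (twE a b D).toAffine.Point) :
    kapG a b m P ≤ Nat.card {x : Sha (twE a b D) // 2 • x = 0} := by
  have hfin := (H.bound hG hB hDe).1
  have hD0 : (D : ℤ) ≠ 0 := by exact_mod_cast H.ne0 hDe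
  have hDq : (D : ℚ) ≠ 0 := by exact_mod_cast H.ne0 hDe
  rw [twE_eq] at hf hfin ⊢
  have nb' : ¬ IsSquare ((b * (D : ℤ) ^ 2 : ℤ) : ℚ) := by
    rintro ⟨s, hs⟩
    apply nb
    rw [← Rat.isSquare_intCast_iff]
    refine ⟨s / D, ?_⟩
    push_cast at hs
    rw [div_mul_div_comm, eq_div_iff (mul_ne_zero hDq hDq), ← hs]
    ring
  have nc' : ¬ IsSquare ((((a * (D : ℤ) : ℤ)) : ℚ) ^ 2 - 4 * ((b * (D : ℤ) ^ 2 : ℤ) : ℚ)) := by
    rintro ⟨s, hs⟩
    apply nc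
    rw [← Rat.isSquare_intCast_iff]
    refine ⟨s / D, ?_⟩
    push_cast at hs ⊢
    rw [div_mul_div_comm, eq_div_iff (mul_ne_zero hDq hDq), ← hs]
    ring
  have hJpr : ∀ J ⊆ P, ∀ q ∈ J, q.Prime := fun J hJ q hq => (H.pr q (hJ hq)).1
  have hJpos : ∀ J ⊆ P, 0 < ((∏ q ∈ J, q : ℕ) : ℤ) := fun J hJ => by
    exact_mod_cast Finset.prod_pos fun q hq => (hJpr J hJ q hq).pos
  have hDe' : (((∏ p ∈ P, p) * m : ℕ) : ℤ) = (D : ℤ) := by rw [hDe]
  set KK := P.powerset.filter fun J => KerG a b m P J with hKK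
  have hKP : ∀ J ∈ KK, J ⊆ P := fun J hJ => Finset.mem_powerset.1 (Finset.mem_filter.1 hJ).1
  have hinj : Set.InjOn (fun J : Finset ℕ => ((∏ q ∈ J, q : ℕ) : ℤ)) (↑KK : Set (Finset ℕ)) := by
    have key : ∀ J J' : Finset ℕ, J ⊆ P → J' ⊆ P →
        ((∏ q ∈ J, q : ℕ) : ℤ) = ((∏ q ∈ J', q : ℕ) : ℤ) → J ⊆ J' := by
      intro J J' h1 h1' he p hp
      by_contra hp'
      have h2 : (p : ℤ) ∣ ((∏ q ∈ J, q : ℕ) : ℤ) :=
        Int.natCast_dvd_natCast.2 (Finset.dvd_prod_of_mem _ hp)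
      rw [he] at h2
      exact ndvd_prod (hJpr J' h1') (hJpr J h1 p hp) hp' h2
    intro J hJ J' hJ' he
    exact Finset.Subset.antisymm
      (key J J' (hKP J (Finset.mem_coe.1 hJ)) (hKP J' (Finset.mem_coe.1 hJ')) he)
      (key J' J (hKP J' (Finset.mem_coe.1 hJ')) (hKP J (Finset.mem_coe.1 hJ)) he.symm)
  have hcard : (KK.image fun J : Finset ℕ => ((∏ q ∈ J, q : ℕ) : ℤ)).card = kapG a b m P :=
    Finset.card_image_of_injOn hinj
  rw [← hcard]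
  refine t_CNV _ _ (H.b0 hDe) (H.c0 hDe) nb' nc' hf _ ?_ ?_ hfin
  · intro d hd
    obtain ⟨J, hJ, rfl⟩ := Finset.mem_image.1 hd
    refine ⟨hJpos J (hKP J hJ), fun p hp => ?_⟩
    have h1 := H.dual.sel_sup hG (hKP J hJ) ((ker_dual H (hKP J hJ)).2 (Finset.mem_filter.1 hJ).2)
      (u := 1) ⟨squarefree_one, qs_sq ⟨1, by norm_num⟩, fun p _ => qs_sq ⟨1, by norm_num⟩⟩
    have h2 := h1.2.2 p
    rw [hDe', mul_one] at h2
    have e1 : -2 * a * (D : ℤ) = -2 * (a * (D : ℤ)) := by ring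
    have e2 : (a ^ 2 - 4 * b) * (D : ℤ) ^ 2 = (a * (D : ℤ)) ^ 2 - 4 * (b * (D : ℤ) ^ 2) := by ring
    rw [e1, e2] at h2
    exact h2
  · intro d hd e he hne
    obtain ⟨x, hxK, rfl⟩ := Finset.mem_image.1 hd
    obtain ⟨y, hyK, rfl⟩ := Finset.mem_image.1 he
    have hx := hKP x hxK
    have hy := hKP y hyK
    have hsd : ((x \ y) ∪ (y \ x)).Nonempty := by
      by_contra hcon
      rw [Finset.not_nonempty_iff_eq_empty, Finset.union_eq_empty,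
        Finset.sdiff_eq_empty_iff_subset, Finset.sdiff_eq_empty_iff_subset] at hcon
      exact hne (by rw [Finset.Subset.antisymm hcon.1 hcon.2])
    have hTp : ∀ q ∈ (x \ y) ∪ (y \ x), q ∈ P := by
      intro q hq
      rcases Finset.mem_union.1 hq with h | h
      · exact hx (Finset.mem_sdiff.1 h).1
      · exact hy (Finset.mem_sdiff.1 h).1
    have hpr : (((((∏ q ∈ x, q : ℕ) : ℤ) * ((∏ q ∈ y, q : ℕ) : ℤ) : ℤ)) : ℚ) =
        ((∏ q ∈ (x \ y) ∪ (y \ x), q : ℕ) : ℚ) * ((∏ q ∈ x ∩ y, q : ℕ) : ℚ) ^ 2 := by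
      have := Pool.Agent.Y698.SG.prod_symm x y
      exact_mod_cast this
    have he0 : ((∏ q ∈ x ∩ y, q : ℕ) : ℚ) ≠ 0 := by
      have := (hJpos (x ∩ y) (Finset.inter_subset_left.trans hx)).ne'
      exact_mod_cast this
    refine ⟨?_, ?_⟩
    · rw [hpr]
      rintro ⟨s, hs⟩
      refine not_sq_prod (fun q hq => (H.pr q (hTp q hq)).1) hsd
        ⟨s / ((∏ q ∈ x ∩ y, q : ℕ) : ℚ), ?_⟩
      rw [div_mul_div_comm, eq_div_iff (mul_ne_zero he0 he0), ← hs]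
      ring
    · rw [hpr]
      rintro ⟨s, hs⟩
      refine not_sq_prod_mul (c := a ^ 2 - 4 * b) (fun q hq => (H.pr q (hTp q hq)).1) hsd
        (fun q hq h => split_nd (H.pr q (hTp q hq)) (h.mul_left _))
        ⟨s / (((∏ q ∈ x ∩ y, q : ℕ) : ℚ) * D), ?_⟩
      have hne0 := mul_ne_zero he0 hDq
      rw [div_mul_div_comm, eq_div_iff (mul_ne_zero hne0 hne0), ← hs]
      push_cast
      ring

/-- **the criterion** -/
theorem HG.iff (hG : S_GOOD) (hB : S_BND) (H : HG a b m P) (nb : ¬ IsSquare b)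
    (nc : ¬ IsSquare (a ^ 2 - 4 * b)) (h4 : sel a b * sel (-2 * a) (a ^ 2 - 4 * b) = 4) {D : ℕ}
    (hDe : D = (∏ p ∈ P, p) * m) :
    (Finite (twE a b D).toAffine.Point ∧ ∀ (n : ℕ) (x : Sha (twE a b D)), 2 ^ n • x = 0 → x = 0) ↔
    kapG a b m P = 1 := by
  obtain ⟨hfin, hb⟩ := H.bound hG hB hDe
  rw [h4] at hb
  have hX0 : 0 < Nat.card {x : Sha (twE a b D) // 2 • x = 0} :=
    Nat.card_pos_iff.2 ⟨⟨⟨0, smul_zero 2⟩⟩, hfin⟩
  constructor
  · rintro ⟨h1, h2⟩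
    have h3 := H.conv hG hB nb nc hDe h1
    have h4 : Nat.card {x : Sha (twE a b D) // 2 • x = 0} = 1 := by
      rw [Nat.card_eq_one_iff_unique]
      refine ⟨⟨fun x y => ?_⟩, ⟨⟨0, smul_zero 2⟩⟩⟩
      apply Subtype.ext
      have hx := h2 1 x.1 (by rw [pow_one]; exact x.2)
      have hy := h2 1 y.1 (by rw [pow_one]; exact y.2)
      rw [hx, hy]
    have h5 : 0 < kapG a b m P := by
      by_contra h
      have h6 : kapG a b m P = 0 := by omega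
      rw [h6, h4] at hb
      have : 0 < 2 ^ rk (twE a b D) := by positivity
      omega
    omega
  · intro hk
    rw [hk, one_pow] at hb
    set X := Nat.card {x : Sha (twE a b D) // 2 • x = 0} with hX
    set r := rk (twE a b D) with hr
    have h2r : 0 < 2 ^ r := by positivity
    have hX1 : X = 1 := by nlinarith
    have hr0 : r = 0 := by
      by_contra h0
      have : 2 ≤ 2 ^ r := by
        calc 2 = 2 ^ 1 := by norm_num
          _ ≤ 2 ^ r := Nat.pow_le_pow_right (by norm_num) (by omega)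
      nlinarith
    have hb0 : (((b * (D : ℤ) ^ 2 : ℤ)) : ℚ) ≠ 0 := by exact_mod_cast H.b0 hDe
    have hc0 : (((a * (D : ℤ) : ℤ)) : ℚ) ^ 2 - 4 * (((b * (D : ℤ) ^ 2 : ℤ)) : ℚ) ≠ 0 := by
      exact_mod_cast H.c0 hDe
    refine ⟨?_, pow_tors fun y hy => ?_⟩
    · rw [hr, twE_eq] at hr0
      rw [twE_eq]
      exact (fin_wc ℚ _ _ hb0 hc0).1 hr0
    · have h4 := (Nat.card_eq_one_iff_unique.1 hX1).1
      exact congrArg Subtype.val (h4.elim ⟨y, hy⟩ ⟨0, smul_zero 2⟩)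

end Pool.Agent.U115.GE
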