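import Pool.Agent.U115.GE.Sel2
import Pool.Agent.U115.GD.Stm

/-!
# The matrix, its kernel, and the good sets
-/

set_option autoImplicit false
set_option linter.style.haveILetI false
set_option linter.unusedSectionVars false
set_option linter.unusedVariables false

open scoped Classical

namespace Pool.Agent.U115.GE

open Finset
open Pool.Agent.Y698.SG (nq nq_prod nq_zero)
open Pool.Agent.Y687 (prime_cast_ne)
open Pool.Agent.Y703.CQ (nr)
open Pool.Agent.U115.GD (Cfg Hc cu Sol Gd)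
open Pool.Agent.U115.XP (matF matF_eqs det_iff nr_nq prod_ne)

theorem gd_iffG (G : Cfg) (f : ℕ → ZMod 2) (S : Finset ℕ) : Gd G f S ↔
    (matF f (S.filter fun p => ¬ Hc G p) (S.filter fun p => Hc G p)).det ≠ 0 := by
  set Q := S.filter fun p => ¬ Hc G p with hQ
  set P := S.filter fun p => Hc G p with hP
  rw [det_iff]
  -- the equation
  have heq : ∀ (x : ℕ → ZMod 2) (p : ℕ), p ∈ P →
      (∑ q ∈ S, nr p q * (cu G x q + x p) + f p * x p =
        (f p + ∑ q ∈ Q, nq p q) * x p + ∑ j : P, nq p j * (x p + x j)) := by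
    intro x p hp
    rw [Finset.sum_coe_sort P (fun j => nq p j * (x p + x j))]
    have h1 : ∑ q ∈ S, nr p q * (cu G x q + x p) =
        ∑ q ∈ Q, nr p q * (cu G x q + x p) + ∑ q ∈ P, nr p q * (cu G x q + x p) := by
      rw [hQ, hP, add_comm]
      exact (Finset.sum_filter_add_sum_filter_not S (fun q => Hc G q) _).symm
    have h2 : ∑ q ∈ Q, nr p q * (cu G x q + x p) = (∑ q ∈ Q, nq p q) * x p := by
      rw [Finset.sum_mul]
      refine Finset.sum_congr rfl fun q hq => ?_
      have h3 : cu G x q = 0 := if_neg (Finset.mem_filter.1 hq).2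
      rw [h3, zero_add, nr_nq]
    have h3 : ∑ q ∈ P, nr p q * (cu G x q + x p) = ∑ q ∈ P, nq p q * (x p + x q) := by
      refine Finset.sum_congr rfl fun q hq => ?_
      have h3 : cu G x q = x q := if_pos (Finset.mem_filter.1 hq).2
      rw [h3, nr_nq, add_comm (x q)]
    rw [h1, h2, h3]
    ring
  constructor
  · intro hg x hx
    set y : ℕ → ZMod 2 := fun i => if h : i ∈ P then x ⟨i, h⟩ else 0 with hy
    have hyx : ∀ i : P, y i = x i := fun i => dif_pos i.2
    have hs : Sol G f S y := by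
      intro p hp h8
      have hpP : p ∈ P := Finset.mem_filter.2 ⟨hp, h8⟩
      rw [heq y p hpP]
      have h1 := hx ⟨p, hpP⟩
      have h2 : y p = x ⟨p, hpP⟩ := hyx ⟨p, hpP⟩
      rw [h2]
      simp only [hyx]
      exact h1
    funext i
    have h1 := hg y hs i (Finset.mem_filter.1 i.2).1 (Finset.mem_filter.1 i.2).2
    rw [hyx] at h1
    exact h1
  · intro h x hs p hp h8
    have h1 := h (fun i : P => x i) (fun i => by
      have h2 := hs i (Finset.mem_filter.1 i.2).1 (Finset.mem_filter.1 i.2).2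
      rw [heq x i i.2] at h2
      exact h2)
    exact congrFun h1 ⟨p, Finset.mem_filter.2 ⟨hp, h8⟩⟩

/-- the diagonal: the class of the roots of `x² + a x + b` -/
noncomputable def thetaG (a b : ℤ) (p : ℕ) : ZMod 2 := if RtG a b p 1 then 1 else 0

variable {a b : ℤ}

/-- the roots for `m` and for `1` -/
theorem rt_mulG {p m : ℕ} [hpf : Fact p.Prime] (hp : Split a b p) (hm0 : (m : ZMod p) ≠ 0) :
    RtG a b p m ↔ (RtG a b p 1 ↔ IsSquare (m : ZMod p)) := by
  obtain ⟨hb, hb0, hc, hc0⟩ := split_b hp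
  have hp2 : p ≠ 2 := by
    rintro rfl
    have := hp.2.1
    omega
  obtain ⟨ρ, hρ⟩ := exists_root (m := 1) hp2 hc
  have hρm : ((m : ZMod p) * ρ) ^ 2 + (a : ZMod p) * m * ((m : ZMod p) * ρ) +
      (b : ZMod p) * (m : ZMod p) ^ 2 = 0 := by
    push_cast at hρ
    linear_combination (m : ZMod p) ^ 2 * hρ
  have h10 : ((1 : ℕ) : ZMod p) ≠ 0 := by rw [Nat.cast_one]; exact one_ne_zero
  have hρ0 : ρ ≠ 0 := by
    rintro rfl
    push_cast at hρ
    exact hb0 (by linear_combination hρ)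
  rw [rtG_iff hb hb0 hm0 hρm, rtG_iff hb hb0 h10 hρ, ← quadraticChar_neg_one_iff_not_isSquare,
    ← quadraticChar_neg_one_iff_not_isSquare, ← quadraticChar_one_iff_isSquare hm0, map_mul]
  rcases quadraticChar_dichotomy hm0 with h1 | h1 <;>
    rcases quadraticChar_dichotomy hρ0 with h2 | h2 <;> rw [h1, h2] <;> norm_num

variable {m : ℕ} {P : Finset ℕ}

/-- the equations of a set of primes -/
theorem ker_iffG (H : HG a b m P) {Q : Finset ℕ} (hQ : ∀ q ∈ Q, q.Prime) (hm : m = ∏ q ∈ Q, q)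
    (hdj : Disjoint Q P) {J : Finset ℕ} (hJ : J ⊆ P) :
    (matF (thetaG a b) Q P).mulVec (fun i => if (i : ℕ) ∈ J then 1 else 0) = 0 ↔ KerG a b m P J := by
  have h01 : ∀ z : ZMod 2, z = 0 ∨ z = 1 := by decide
  have hPp : ∀ p ∈ P, p.Prime := fun p hp => (H.pr p hp).1
  have hmem : ∀ i : P, (matF (thetaG a b) Q P).mulVec (fun i : P => if (i : ℕ) ∈ J then (1 : ZMod 2) else 0) i
      = (thetaG a b i + nq i m) * (if (i : ℕ) ∈ J then 1 else 0) +
        ∑ j ∈ P, nq i j * ((if (i : ℕ) ∈ J then 1 else 0) + (if j ∈ J then 1 else 0)) := by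
    intro i
    rw [matF_eqs]
    have h1 : ∑ q ∈ Q, nq i q = nq i m := by
      rw [hm, nq_prod (hPp i i.2) hQ (fun h => Finset.disjoint_left.1 hdj h i.2)]
    rw [h1, Finset.sum_coe_sort P (fun j => nq i j * ((if (i : ℕ) ∈ J then 1 else 0) +
      (if j ∈ J then 1 else 0)))]
  have hin : ∀ i ∉ J, i ∈ P → ((∑ j ∈ P, nq i j * ((0 : ZMod 2) + (if j ∈ J then 1 else 0))) = 0 ↔
      IsSquare ((∏ q ∈ J, q : ℕ) : ZMod i)) := by
    intro i hi hiP
    have h1 : ∑ j ∈ P, nq i j * ((0 : ZMod 2) + (if j ∈ J then 1 else 0)) = ∑ j ∈ J, nq i j := by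
      rw [← Finset.sum_subset hJ]
      · exact Finset.sum_congr rfl fun j hj => by rw [if_pos hj]; ring
      · intro j _ hj
        rw [if_neg hj]; ring
    rw [h1, ← nq_prod (hPp i hiP) (fun q hq => hPp q (hJ hq)) hi, nq_zero]
  have hout : ∀ i ∈ J, ∑ j ∈ P, nq i j * ((1 : ZMod 2) + (if j ∈ J then 1 else 0)) =
      nq i (∏ q ∈ P \ J, q) := by
    intro i hi
    have h1 : ∑ j ∈ P, nq i j * ((1 : ZMod 2) + (if j ∈ J then 1 else 0)) = ∑ j ∈ P \ J, nq i j := by
      rw [← Finset.sum_subset (Finset.sdiff_subset : P \ J ⊆ P)]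
      · exact Finset.sum_congr rfl fun j hj => by rw [if_neg (Finset.mem_sdiff.1 hj).2]; ring
      · intro j hjP hj
        have hjJ : j ∈ J := by
          by_contra h
          exact hj (Finset.mem_sdiff.2 ⟨hjP, h⟩)
        rw [if_pos hjJ, show (1 : ZMod 2) + 1 = 0 from by decide, mul_zero]
    rw [h1, nq_prod (hPp i (hJ hi)) (fun q hq => hPp q (Finset.mem_sdiff.1 hq).1)
      (fun h => (Finset.mem_sdiff.1 h).2 hi)]
  have hmz : ∀ i ∈ P, ((m : ℕ) : ZMod i) ≠ 0 := by
    intro i hi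
    haveI : Fact i.Prime := ⟨hPp i hi⟩
    rw [hm]
    exact prod_ne hQ (fun h => Finset.disjoint_left.1 hdj h hi)
  have hJin : ∀ i ∈ J, ((thetaG a b i + nq i m) * 1 + nq i (∏ q ∈ P \ J, q) = 0 ↔
      ¬ (IsSquare ((∏ q ∈ P \ J, q : ℕ) : ZMod i) ↔ RtG a b i m)) := by
    intro i hi
    have isp := H.pr i (hJ hi)
    haveI : Fact i.Prime := ⟨isp.1⟩
    rw [rt_mulG isp (hmz i (hJ hi))]
    unfold thetaG nq
    generalize IsSquare ((∏ q ∈ P \ J, q : ℕ) : ZMod i) = c'
    generalize IsSquare ((m : ℕ) : ZMod i) = b'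
    generalize RtG a b i 1 = a'
    have e0 : ¬ ((1 + 0) * 1 + 0 : ZMod 2) = 0 := by decide
    have e1 : ((1 + 0) * 1 + 1 : ZMod 2) = 0 := by decide
    have e2 : ((1 + 1) * 1 + 0 : ZMod 2) = 0 := by decide
    have e3 : ¬ ((1 + 1) * 1 + 1 : ZMod 2) = 0 := by decide
    have e4 : ((0 + 0) * 1 + 0 : ZMod 2) = 0 := by decide
    have e5 : ¬ ((0 + 0) * 1 + 1 : ZMod 2) = 0 := by decide
    have e6 : ¬ ((0 + 1) * 1 + 0 : ZMod 2) = 0 := by decide
    have e7 : ((0 + 1) * 1 + 1 : ZMod 2) = 0 := by decide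
    by_cases h1 : a' <;> by_cases h2 : b' <;> by_cases h3 : c' <;>
      simp only [h1, h2, h3, if_true, if_false, e0, e1, e2, e3, e4, e5, e6, e7] <;> tauto
  constructor
  · intro h
    constructor
    · intro p hp
      rw [Finset.mem_sdiff] at hp
      have h1 := congrFun h ⟨p, hp.1⟩
      rw [hmem] at h1
      simp only [if_neg hp.2, mul_zero, zero_add, Pi.zero_apply] at h1
      refine (hin p hp.2 hp.1).1 ?_
      simp only [zero_add]
      exact h1
    · intro p hp
      have h1 := congrFun h ⟨p, hJ hp⟩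
      rw [hmem] at h1
      simp only [if_pos hp, Pi.zero_apply] at h1
      rw [hout p hp] at h1
      exact (hJin p hp).1 h1
  · rintro ⟨h1, h2⟩
    funext i
    rw [hmem]
    by_cases hi : (i : ℕ) ∈ J
    · simp only [if_pos hi, Pi.zero_apply]
      rw [hout i hi]
      exact (hJin i hi).2 (h2 i hi)
    · simp only [if_neg hi, mul_zero, Pi.zero_apply, zero_add]
      have := (hin i hi i.2).2 (h1 i (Finset.mem_sdiff.2 ⟨i.2, hi⟩))
      simp only [zero_add] at this
      exact this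

/-- the number of the vectors of the kernel -/
theorem kap_eqG (H : HG a b m P) {Q : Finset ℕ} (hQ : ∀ q ∈ Q, q.Prime) (hm : m = ∏ q ∈ Q, q)
    (hdj : Disjoint Q P) : kapG a b m P = 2 ^ (P.card - (matF (thetaG a b) Q P).rank) := by
  have e : {J : Finset ℕ // J ∈ P.powerset.filter fun J => KerG a b m P J} ≃
      LinearMap.ker (matF (thetaG a b) Q P).mulVecLin := by
    refine Equiv.ofBijective (fun J => ⟨fun i => if (i : ℕ) ∈ J.1 then 1 else 0, ?_⟩) ⟨?_, ?_⟩
    · have h1 := Finset.mem_filter.1 J.2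
      exact (ker_iffG H hQ hm hdj (Finset.mem_powerset.1 h1.1)).2 h1.2
    · intro x y hxy
      have hx := Finset.mem_powerset.1 (Finset.mem_filter.1 x.2).1
      have hy := Finset.mem_powerset.1 (Finset.mem_filter.1 y.2).1
      have h1 : ∀ i : P, ((i : ℕ) ∈ x.1 ↔ (i : ℕ) ∈ y.1) := by
        intro i
        have h2 := congrFun (congrArg Subtype.val hxy) i
        simp only at h2
        by_cases h3 : (i : ℕ) ∈ x.1 <;> by_cases h4 : (i : ℕ) ∈ y.1 <;> simp [h3, h4] at h2 ⊢
      apply Subtype.ext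
      ext i
      constructor
      · intro hi
        exact (h1 ⟨i, hx hi⟩).1 hi
      · intro hi
        exact (h1 ⟨i, hy hi⟩).2 hi
    · intro x
      have h01 : ∀ z : ZMod 2, z = 0 ∨ z = 1 := by decide
      set J : Finset ℕ := P.filter fun i => ∃ h : i ∈ P, x.1 ⟨i, h⟩ = 1 with hJ
      have hJP : J ⊆ P := Finset.filter_subset _ _
      have hxe : (fun i : P => if (i : ℕ) ∈ J then (1 : ZMod 2) else 0) = x.1 := by
        funext i
        by_cases h : (i : ℕ) ∈ J
        · rw [if_pos h]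
          obtain ⟨-, h2, h3⟩ := Finset.mem_filter.1 h
          exact h3.symm
        · rw [if_neg h]
          rcases h01 (x.1 i) with h2 | h2
          · exact h2.symm
          · exact absurd (Finset.mem_filter.2 ⟨i.2, i.2, h2⟩) h
      have hk : (matF (thetaG a b) Q P).mulVec x.1 = 0 := x.2
      rw [← hxe] at hk
      refine ⟨⟨J, Finset.mem_filter.2 ⟨Finset.mem_powerset.2 hJP, (ker_iffG H hQ hm hdj hJP).1 hk⟩⟩, ?_⟩
      exact Subtype.ext hxe
  have h1 := LinearMap.finrank_range_add_finrank_ker (matF (thetaG a b) Q P).mulVecLin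
  have h2 : Module.finrank (ZMod 2) (LinearMap.range (matF (thetaG a b) Q P).mulVecLin) =
      (matF (thetaG a b) Q P).rank := rfl
  rw [Module.finrank_fintype_fun_eq_card, Fintype.card_coe, h2] at h1
  have h3 := Nat.card_congr e
  rw [Nat.card_eq_fintype_card, Fintype.card_coe, Module.natCard_eq_pow_finrank (K := ZMod 2),
    Nat.card_zmod] at h3
  unfold kapG
  rw [h3]
  congr 1
  omega

end Pool.Agent.U115.GE
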