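import Pool.Agent.U115.GE.Sel

/-!
# The Selmer groups of the twists: the exact number of elements
-/

set_option autoImplicit false
set_option linter.style.haveILetI false
set_option linter.unusedVariables false

namespace Pool.Agent.U115.GE

open Finset
open Pool.Agent.Y687 (prime_cast_ne)
open Pool.Agent.U115.TP (LSol erase_prod)
open Pool.Agent.U115.XP (sq_erase_iff prod_ne)
open Pool.Agent.Y971.SG.Lq (t_SQ padic_sq2)

variable {a b : ℤ} {m : ℕ} {P J : Finset ℕ}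

/-- a nonsquare times a nonsquare -/
theorem nn_sq {p : ℕ} [Fact p.Prime] {x y : ZMod p} (hx : ¬ IsSquare x) (hy : ¬ IsSquare y) :
    IsSquare (x * y) := by
  have hx0 : x ≠ 0 := by rintro rfl; exact hx ⟨0, by ring⟩
  have hy0 : y ≠ 0 := by rintro rfl; exact hy ⟨0, by ring⟩
  rw [← quadraticChar_one_iff_isSquare (mul_ne_zero hx0 hy0), map_mul,
    quadraticChar_neg_one_iff_not_isSquare.2 hx, quadraticChar_neg_one_iff_not_isSquare.2 hy]
  norm_num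

theorem ndvd_prod {J : Finset ℕ} (hJ : ∀ q ∈ J, q.Prime) {p : ℕ} (hp : p.Prime) (hpJ : p ∉ J) :
    ¬ (p : ℤ) ∣ ((∏ q ∈ J, q : ℕ) : ℤ) := by
  haveI : Fact p.Prime := ⟨hp⟩
  intro h
  have := prod_ne hJ hpJ
  apply this
  rw [ZMod.natCast_eq_zero_iff]
  exact Int.natCast_dvd_natCast.1 h

/-- **the second inclusion** -/
theorem HG.sel_sup (hG : S_GOOD) (H : HG a b m P) (hJP : J ⊆ P) (hK : KerG a b m P J) {u : ℤ}
    (hu : u ∈ SelSet a b) : ((∏ q ∈ J, q : ℕ) : ℤ) * u ∈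
      SelSet (a * (((∏ p ∈ P, p) * m : ℕ) : ℤ)) (b * (((∏ p ∈ P, p) * m : ℕ) : ℤ) ^ 2) := by
  classical
  have hub : ∀ q : ℕ, q.Prime → (q : ℤ) ∣ u → (q : ℤ) ∣ b := fun q hq h => sel_dvd hu hq h
  have hu0 : u ≠ 0 := hu.1.ne_zero
  have hJp : ∀ q ∈ J, q.Prime := fun q hq => (H.pr q (hJP hq)).1
  have hJr : Res a b (∏ q ∈ J, q) := res_prod fun p hp => (H.pr p (hJP hp)).2
  have hJ0 : (∏ q ∈ J, q) ≠ 0 := by have := hJr.1; omega
  have hD0 : ((∏ p ∈ P, p) * m) ≠ 0 := by have := H.res.1; omega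
  refine ⟨?_, ?_, fun l hl => ?_⟩
  · rw [squarefree_mul_iff]
    refine ⟨?_, ?_, hu.1⟩
    · refine IsCoprime.isRelPrime ?_
      rw [Int.isCoprime_iff_nat_coprime, Int.natAbs_natCast]
      refine Nat.Coprime.prod_left fun q hq => ?_
      rw [(hJp q hq).coprime_iff_not_dvd]
      intro h
      exact split_nd (H.pr q (hJP hq)) ((hub q (hJp q hq) (Int.natCast_dvd.2 h)).mul_right _)
    · rw [Int.squarefree_natCast]
      refine Finset.squarefree_prod_of_pairwise_isCoprime (fun p hp q hq hpq => ?_)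
        fun p hp => (hJp p hp).squarefree
      show IsRelPrime p q
      rw [← Nat.coprime_iff_isRelPrime]
      exact (Nat.coprime_primes (hJp p hp) (hJp q hq)).mpr hpq
  · exact (qs_scale (sq_real hD0).1 (sq_real hD0).2 (sq_real hJ0).1 (sq_real hJ0).2).2 hu.2.1
  by_cases hbad : l = 2 ∨ (l : ℤ) ∣ b * (a ^ 2 - 4 * b)
  · exact (qs_scale (sq_bad H.res hbad).1 (sq_bad H.res hbad).2 (sq_bad hJr hbad).1
      (sq_bad hJr hbad).2).2 (hu.2.2 l)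
  rw [not_or] at hbad
  obtain ⟨l2, lb⟩ := hbad
  have hlb : ¬ (l : ℤ) ∣ b := fun h => lb (h.mul_right _)
  have hlc : ¬ (l : ℤ) ∣ a ^ 2 - 4 * b := fun h => lb (h.mul_left _)
  have hlu : ¬ (l : ℤ) ∣ u := fun h => hlb (hub l hl.out h)
  have hlP : Prime (l : ℤ) := Nat.prime_iff_prime_int.1 hl.out
  by_cases hlJ : l ∈ J
  · exact H.at_J hJP hK hu0 hub l hlJ
  have hlJd := ndvd_prod hJp hl.out hlJ
  have hld : ¬ (l : ℤ) ∣ ((∏ q ∈ J, q : ℕ) : ℤ) * u := fun h =>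
    (hlP.dvd_or_dvd h).elim hlJd hlu
  have hdz : ((((∏ q ∈ J, q : ℕ) : ℤ) * u : ℤ) : ZMod l) ≠ 0 := by
    rw [Ne, ZMod.intCast_zmod_eq_zero_iff_dvd]; exact hld
  have hsq : IsSquare ((((∏ q ∈ J, q : ℕ) : ℤ) * u : ℤ) : ZMod l) →
      Qs ℚ_[l] (a * (((∏ p ∈ P, p) * m : ℕ) : ℤ)) (b * (((∏ p ∈ P, p) * m : ℕ) : ℤ) ^ 2)
      (((∏ q ∈ J, q : ℕ) : ℤ) * u) := fun h => qs_sq (t_SQ l _ l2 hld h)
  by_cases hlPP : l ∈ P
  · apply hsq
    have h1 := hK.1 l (Finset.mem_sdiff.2 ⟨hlPP, hlJ⟩)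
    have h2 := usq (H.pr l hlPP) hu0 fun q hq _ hqu => (hub q hq hqu).mul_right _
    rw [Int.cast_mul, Int.cast_natCast]
    exact h1.mul h2
  by_cases hlm : l ∣ m
  · by_cases h3 : IsSquare ((((∏ q ∈ J, q : ℕ) : ℤ) * u : ℤ) : ZMod l)
    · exact hsq h3
    · have h4 := nn_sq (H.two l hl.out hlm).2.1 h3
      rw [← Int.cast_mul] at h4
      have h5 := t_SQ l (b * (((∏ q ∈ J, q : ℕ) : ℤ) * u)) l2
        (fun h => (hlP.dvd_or_dvd h).elim hlb hld) h4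
      have hdK : ((((∏ q ∈ J, q : ℕ) : ℤ) * u : ℤ) : ℚ_[l]) ≠ 0 := by
        exact_mod_cast mul_ne_zero (by exact_mod_cast hJ0) hu0
      refine qs_sqb hdK ?_
      obtain ⟨s, hs⟩ := h5
      refine ⟨s * ((((∏ p ∈ P, p) * m : ℕ) : ℤ) : ℚ_[l]), ?_⟩
      rw [Int.cast_mul] at hs
      rw [Int.cast_mul, Int.cast_pow]
      linear_combination (((((∏ p ∈ P, p) * m : ℕ) : ℤ) : ℚ_[l]) ^ 2) * hs
  · have hlD : ¬ (l : ℤ) ∣ (((∏ p ∈ P, p) * m : ℕ) : ℤ) := fun h =>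
      (H.cop_case hl.out h).elim hlPP hlm
    refine hG _ _ _ l l2 (fun h => ?_) (fun h => ?_) hld
    · exact (hlP.dvd_or_dvd h).elim hlb fun h => hlD (hlP.dvd_of_dvd_pow h)
    · have e : (a * (((∏ p ∈ P, p) * m : ℕ) : ℤ)) ^ 2 - 4 * (b * (((∏ p ∈ P, p) * m : ℕ) : ℤ) ^ 2) =
        (a ^ 2 - 4 * b) * (((∏ p ∈ P, p) * m : ℕ) : ℤ) ^ 2 := by ring
      rw [e] at h
      exact (hlP.dvd_or_dvd h).elim hlc fun h => hlD (hlP.dvd_of_dvd_pow h)

open scoped Classical in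
/-- the number of the sets of the kernel -/
noncomputable def kapG (a b : ℤ) (m : ℕ) (P : Finset ℕ) : ℕ :=
  (P.powerset.filter fun J => KerG a b m P J).card

/-- **the Selmer group of the twist** -/
theorem HG.sel_eq (hG : S_GOOD) (H : HG a b m P) :
    sel (a * (((∏ p ∈ P, p) * m : ℕ) : ℤ)) (b * (((∏ p ∈ P, p) * m : ℕ) : ℤ) ^ 2) =
      kapG a b m P * sel a b := by
  classical
  have hset : SelSet (a * (((∏ p ∈ P, p) * m : ℕ) : ℤ)) (b * (((∏ p ∈ P, p) * m : ℕ) : ℤ) ^ 2) =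
      (fun x : Finset ℕ × ℤ => ((∏ q ∈ x.1, q : ℕ) : ℤ) * x.2) ''
        ((↑(P.powerset.filter fun J => KerG a b m P J) : Set (Finset ℕ)) ×ˢ SelSet a b) := by
    ext d
    constructor
    · intro hd
      obtain ⟨J, hJP, hJ, u, hu, hdu⟩ := H.sel_sub hG hd
      exact ⟨(J, u), ⟨Finset.mem_coe.2 (Finset.mem_filter.2 ⟨Finset.mem_powerset.2 hJP, hJ⟩), hu⟩,
        hdu.symm⟩
    · rintro ⟨⟨J, u⟩, ⟨hJ, hu⟩, rfl⟩
      have h1 := Finset.mem_filter.1 (Finset.mem_coe.1 hJ)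
      exact H.sel_sup hG (Finset.mem_powerset.1 h1.1) h1.2 hu
  have hinj : Set.InjOn (fun x : Finset ℕ × ℤ => ((∏ q ∈ x.1, q : ℕ) : ℤ) * x.2)
      ((↑(P.powerset.filter fun J => KerG a b m P J) : Set (Finset ℕ)) ×ˢ SelSet a b) := by
    rintro ⟨J, u⟩ ⟨hJ, hu⟩ ⟨J', u'⟩ ⟨hJ', hu'⟩ he
    simp only at he hJ hJ' hu hu'
    have h1 := Finset.mem_powerset.1 (Finset.mem_filter.1 (Finset.mem_coe.1 hJ)).1
    have h1' := Finset.mem_powerset.1 (Finset.mem_filter.1 (Finset.mem_coe.1 hJ')).1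
    have key : ∀ (J J' : Finset ℕ) (u u' : ℤ), J ⊆ P → J' ⊆ P → u ∈ SelSet a b →
        u' ∈ SelSet a b → ((∏ q ∈ J, q : ℕ) : ℤ) * u = ((∏ q ∈ J', q : ℕ) : ℤ) * u' → J ⊆ J' := by
      intro J J' u u' h1 h1' hu hu' he p hp
      by_contra hp'
      have hpp := (H.pr p (h1 hp)).1
      have h2 : (p : ℤ) ∣ ((∏ q ∈ J, q : ℕ) : ℤ) * u :=
        (Int.natCast_dvd_natCast.2 (Finset.dvd_prod_of_mem _ hp)).mul_right _
      rw [he] at h2
      rcases (Nat.prime_iff_prime_int.1 hpp).dvd_or_dvd h2 with h3 | h3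
      · exact ndvd_prod (fun q hq => (H.pr q (h1' hq)).1) hpp hp' h3
      · exact split_nd (H.pr p (h1 hp)) ((sel_dvd hu' hpp h3).mul_right _)
    have hJJ : J = J' := Finset.Subset.antisymm (key J J' u u' h1 h1' hu hu' he)
      (key J' J u' u h1' h1 hu' hu he.symm)
    subst hJJ
    have hJ0 : ((∏ q ∈ J, q : ℕ) : ℤ) ≠ 0 := by
      exact_mod_cast Finset.prod_ne_zero_iff.2 fun q hq => (H.pr q (h1 hq)).1.ne_zero
    rw [mul_left_cancel₀ hJ0 he]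
  unfold sel
  rw [hset, Set.ncard_image_of_injOn hinj, Set.ncard_prod, Set.ncard_coe_finset]
  rfl

theorem res_dual {n : ℕ} : Res (-2 * a) (a ^ 2 - 4 * b) n ↔ Res a b n := by
  unfold Res
  refine and_congr_right fun _ => forall₃_congr fun l hl h2 => ?_
  have h1 : (l : ℤ) ∣ (a ^ 2 - 4 * b) * ((-2 * a) ^ 2 - 4 * (a ^ 2 - 4 * b)) ↔
      (l : ℤ) ∣ b * (a ^ 2 - 4 * b) := by
    have e : (a ^ 2 - 4 * b) * ((-2 * a) ^ 2 - 4 * (a ^ 2 - 4 * b)) =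
        (b * (a ^ 2 - 4 * b)) * 2 ^ 4 := by ring
    rw [e]
    have hlP : Prime (l : ℤ) := Nat.prime_iff_prime_int.1 hl
    constructor
    · intro h
      refine (hlP.dvd_or_dvd h).resolve_right fun h3 => ?_
      have h4 : (l : ℤ) ∣ ((2 : ℕ) : ℤ) := by exact_mod_cast hlP.dvd_of_dvd_pow h3
      exact h2 ((Nat.prime_dvd_prime_iff_eq hl Nat.prime_two).1 (Int.natCast_dvd_natCast.1 h4))
    · intro h
      exact h.mul_right _
  rw [h1]

/-- the dual hypotheses -/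
theorem HG.dual (H : HG a b m P) : HG (-2 * a) (a ^ 2 - 4 * b) m P := by
  have e : (-2 * a) ^ 2 - 4 * (a ^ 2 - 4 * b) = 16 * b := by ring
  refine ⟨H.hc, ?_, H.sqf, res_dual.2 H.res, fun p hp => ⟨(H.pr p hp).1, res_dual.2 (H.pr p hp).2⟩,
    fun q hq hqm => ?_⟩
  · rw [e]
    exact mul_ne_zero (by norm_num) H.hb
  · obtain ⟨h2, hb, hc⟩ := H.two q hq hqm
    refine ⟨h2, hc, ?_⟩
    rw [e]
    haveI : Fact q.Prime := ⟨hq⟩
    have n2 : (2 : ZMod q) ≠ 0 := by exact_mod_cast prime_cast_ne hq 2 Nat.prime_two h2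
    rintro ⟨s, hs⟩
    apply hb
    have n4 : (4 : ZMod q) ≠ 0 := by
      rw [show (4 : ZMod q) = 2 * 2 by norm_num]; exact mul_ne_zero n2 n2
    refine ⟨s / 4, ?_⟩
    push_cast at hs
    rw [div_mul_div_comm, eq_div_iff (mul_ne_zero n4 n4), ← hs]
    ring

theorem ker_dual (H : HG a b m P) (hJP : J ⊆ P) :
    KerG (-2 * a) (a ^ 2 - 4 * b) m P J ↔ KerG a b m P J := by
  unfold KerG
  refine and_congr_right fun _ => forall₂_congr fun p hp => ?_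
  have hsp := H.pr p (hJP hp)
  haveI : Fact p.Prime := ⟨hsp.1⟩
  obtain ⟨h1, h2, h3, h4⟩ := split_b hsp
  rw [rt_dual (by have := hsp.2.1; omega) h1 h2 h3 h4 (by
    rw [Ne, ZMod.natCast_eq_zero_iff]
    exact H.not_m (hJP hp))]

theorem kap_dual (H : HG a b m P) : kapG (-2 * a) (a ^ 2 - 4 * b) m P = kapG a b m P := by
  classical
  unfold kapG
  refine congrArg Finset.card (Finset.filter_congr fun J hJ => ?_)
  exact ker_dual H (Finset.mem_powerset.1 hJ)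

/-- the dual Selmer group of the twist -/
theorem HG.sel_eq' (hG : S_GOOD) (H : HG a b m P) :
    sel (-2 * (a * (((∏ p ∈ P, p) * m : ℕ) : ℤ))) ((a * (((∏ p ∈ P, p) * m : ℕ) : ℤ)) ^ 2 -
      4 * (b * (((∏ p ∈ P, p) * m : ℕ) : ℤ) ^ 2)) =
      kapG a b m P * sel (-2 * a) (a ^ 2 - 4 * b) := by
  have h1 := H.dual.sel_eq hG
  rw [kap_dual H] at h1
  rw [← h1]
  congr 1 <;> ring

end Pool.Agent.U115.GE
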