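import Pool.Agent.U115.GE.Fin

/-!
# Project GE: the curves over multiquadratic number fields (statements of the delegated parts)
-/

set_option autoImplicit false

open scoped Classical

namespace Pool.Agent.U115.GE

open Pool.Agent.Y682 (wc)
open Pool.Agent.TH841.NF.D (Sha rk)

/-- GE-MQF (templates `Pool/Agent/U80/MQ/{Rk,ShaM}.lean`, for the curve `X_0(49)`): if all the twists by
the squarefree parts of `D ∏ m_i`, `i ∈ T`, have finitely many points and no element of order two in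
`Ш`, then the twist by `D` has finitely many points over the field `K` generated by square roots of the
`m_i`, and the `2`-primary part of its `Ш` over `K` is killed by `2 ^ n`. -/
def S_MQF : Prop := ∀ (a b : ℤ) (D n : ℕ) (m : Fin n → ℕ), b ≠ 0 → a ^ 2 - 4 * b ≠ 0 → D ≠ 0 →
  (∀ i, m i ≠ 0) →
  (∀ (T : Finset (Fin n)) (N g : ℕ), Squarefree N → N * g ^ 2 = D * ∏ i ∈ T, m i →
    Finite (twE a b N).toAffine.Point ∧ ∀ x : Sha (twE a b N), 2 • x = 0 → x = 0) →
  ∀ (K : Type) [Field K] [NumberField K] (r : Fin n → K), (∀ i, r i ^ 2 = (m i : K)) →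
    IntermediateField.adjoin ℚ (Set.range r) = ⊤ →
    Finite (wc ((a : K) * (D : K)) ((b : K) * (D : K) ^ 2)).toAffine.Point ∧
    ∀ (k : ℕ) (x : Sha (wc ((a : K) * (D : K)) ((b : K) * (D : K) ^ 2))),
      2 ^ k • x = 0 → 2 ^ n • x = 0

/-- GE-MQR: the rank over `K` is at most the sum of the ranks of the twists -/
def S_MQR : Prop := ∀ (a b : ℤ) (D n : ℕ) (m : Fin n → ℕ), b ≠ 0 → a ^ 2 - 4 * b ≠ 0 → D ≠ 0 →
  (∀ i, m i ≠ 0) → ∀ ρ : Finset (Fin n) → ℕ,
  (∀ (T : Finset (Fin n)) (N g : ℕ), Squarefree N → N * g ^ 2 = D * ∏ i ∈ T, m i →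
    rk (twE a b N) ≤ ρ T) →
  ∀ (K : Type) [Field K] [NumberField K] (r : Fin n → K), (∀ i, r i ^ 2 = (m i : K)) →
    IntermediateField.adjoin ℚ (Set.range r) = ⊤ →
    rk (wc ((a : K) * (D : K)) ((b : K) * (D : K) ^ 2)) ≤ ∑ T : Finset (Fin n), ρ T

end Pool.Agent.U115.GE
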