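import Pool.Agent.U115.GE.Defs

/-!
# Project GE: the lower bound for `2 ^ rank · #Ш[2]` (statement of a delegated part)
-/

set_option autoImplicit false

open scoped Classical

namespace Pool.Agent.U115.GE

open Pool.Agent.Y682 (wc)
open Pool.Agent.TH841.NF.D (Sha rk)

/-- GE-CNV2: everywhere locally soluble coverings, different modulo squares and modulo
`a² - 4 b`, give `T.card ≤ 2 ^ rank · #Ш[2]` (no hypothesis on the rank; `t_CNV` in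
`Pool/Agent/U115/GE/Conv.lean` is the case of finitely many points). Plan: the map `d ↦ coc d` of
`Pool/Agent/Y698/SG/Eba.lean` (`sha_inj`) from `T` to `Ш[2]`; if `coc (d d')` is a coboundary then by
`Pool.Agent.Y945.SG.t_COB` `d d'` is in the image `Im'` of `E'(ℚ)` in `ℚˣ` modulo squares; so every fibre
has at most `#Im' / 2` elements (`c = a² - 4 b` is in `Im'`), and `#Im · #Im' ≤ 4 · 2 ^ rank`,
`#Im ≥ 2` because `b` is not a square (descent by the isogenies `φ`, `φ'`, `φ' φ = 2`, and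
`#(E(ℚ)/2E(ℚ)) = 2 ^ (rank + 1)`). -/
def S_CNV2 : Prop := ∀ (a b : ℤ), b ≠ 0 → a ^ 2 - 4 * b ≠ 0 → ¬ IsSquare (b : ℚ) →
  ¬ IsSquare ((a : ℚ) ^ 2 - 4 * b) →
  ∀ T : Finset ℤ, (∀ d ∈ T, 0 < d ∧ ∀ (p : ℕ) [Fact p.Prime], Qs ℚ_[p] (-2 * a) (a ^ 2 - 4 * b) d) →
  (∀ d ∈ T, ∀ e ∈ T, d ≠ e → ¬ IsSquare ((d * e : ℤ) : ℚ) ∧
    ¬ IsSquare (((d * e : ℤ) : ℚ) * ((a : ℚ) ^ 2 - 4 * b))) →
  Finite {x : Sha (wc (a : ℚ) (b : ℚ)) // 2 • x = 0} →
  T.card ≤ 2 ^ rk (wc (a : ℚ) (b : ℚ)) *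
    Nat.card {x : Sha (wc (a : ℚ) (b : ℚ)) // 2 • x = 0}

end Pool.Agent.U115.GE
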